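import Pool.Agent.H86.Mono.Defs

/-!
# One, two and three coordinates
-/

set_option autoImplicit false

namespace Pool.Agent.H86.Mono

open Finset

theorem arr_one (ε : ℕ → Bool) (n : ℕ) : Arr 1 ε (2 * n) n := by
  intro V c hV hc _
  have key : ∀ b, n ≤ (V.filter (fun v => c (fun _ => v) = b)).card →
      ∃ S ⊆ V, S.card = n ∧ Hom 1 c S := by
    intro b h
    obtain ⟨S, hS, hSc⟩ := exists_subset_card_eq h
    refine ⟨S, hS.trans (filter_subset _ _), hSc, b, fun x hx => ?_⟩
    have h1 := (mem_filter.1 (hS (hx.1 0 one_pos))).2
    rw [← h1]
    refine hc _ _ (fun i hi => ?_)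
    have : i = 0 := by omega
    rw [this]
  by_cases h : n ≤ (V.filter (fun v => c (fun _ => v) = true)).card
  · exact key true h
  · refine key false ?_
    have h2 := card_filter_add_card_filter_not (s := V) (fun v => c (fun _ => v) = true)
    have h3 : (V.filter (fun v => ¬ c (fun _ => v) = true)) =
        V.filter (fun v => c (fun _ => v) = false) := by
      refine filter_congr (fun v _ => ?_)
      simp
    rw [h3] at h2
    omega

/-- relations preserved when the first argument decreases -/
theorem pairs (P : ℕ → ℕ → Prop) (n : ℕ) : ∀ (k : ℕ) (V : Finset ℕ), k * n ≤ V.card →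
    (∀ a ∈ V, ∀ u ∈ V, ∀ v ∈ V, a < u → u < v → P u v → P a v) →
    (∃ S ⊆ V, S.card = n ∧ ∀ u ∈ S, ∀ v ∈ S, u < v → ¬ P u v) ∨
    (∃ S ⊆ V, S.card = k ∧ ∀ u ∈ S, ∀ v ∈ S, u < v → P u v) := by
  classical
  intro k
  induction k with
  | zero =>
    intro V _ _
    exact Or.inr ⟨∅, empty_subset _, card_empty, by simp⟩
  | succ k ih =>
    intro V hV hP
    rcases Nat.eq_zero_or_pos n with hn | hn
    · subst hn
      exact Or.inl ⟨∅, empty_subset _, card_empty, by simp⟩
    have hne : V.Nonempty := card_pos.1 (by nlinarith)
    set a := V.min' hne with ha
    have haV : a ∈ V := V.min'_mem hne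
    have hmin : ∀ v ∈ V, a ≤ v := fun v hv => V.min'_le v hv
    set B := V.filter (fun v => v = a ∨ ¬ P a v) with hB
    set W := V.filter (fun v => ¬ (v = a ∨ ¬ P a v)) with hW
    have hc : B.card + W.card = V.card := card_filter_add_card_filter_not (s := V) _
    by_cases h : n ≤ B.card
    · left
      obtain ⟨S, hS, hSc⟩ := exists_subset_card_eq h
      refine ⟨S, hS.trans (filter_subset _ _), hSc, fun u hu v hv huv hPuv => ?_⟩
      have hu1 := mem_filter.1 (hS hu)
      have hv1 := mem_filter.1 (hS hv)
      have hva : v ≠ a := by
        intro h3
        have := hmin u hu1.1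
        omega
      rcases hv1.2 with h3 | h3
      · exact hva h3
      · apply h3
        rcases Nat.eq_or_lt_of_le (hmin u hu1.1) with h4 | h4
        · rw [h4]
          exact hPuv
        · exact hP a haV u hu1.1 v hv1.1 h4 huv hPuv
    · have hWc : k * n ≤ W.card := by
        have : (k + 1) * n = k * n + n := by ring
        omega
      have hWV : W ⊆ V := filter_subset _ _
      rcases ih W hWc (fun x hx u hu v hv => hP x (hWV hx) u (hWV hu) v (hWV hv)) with
        ⟨S, hS, hSc, hSP⟩ | ⟨S, hS, hSc, hSP⟩
      · exact Or.inl ⟨S, hS.trans hWV, hSc, hSP⟩
      · right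
        have haS : a ∉ S := by
          intro h3
          have := (mem_filter.1 (hS h3)).2
          exact this (Or.inl rfl)
        refine ⟨insert a S, ?_, by rw [card_insert_of_notMem haS, hSc], ?_⟩
        · intro v hv
          rcases mem_insert.1 hv with h3 | h3
          · rw [h3]
            exact haV
          · exact hWV (hS h3)
        · intro u hu v hv huv
          rcases mem_insert.1 hv with h3 | h3
          · exfalso
            rcases mem_insert.1 hu with h4 | h4
            · omega
            · have := hmin u (hWV (hS h4))
              omega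
          · rcases mem_insert.1 hu with h4 | h4
            · have h5 := (mem_filter.1 (hS h3)).2
              push Not at h5
              rw [h4]
              exact h5.2
            · exact hSP u h4 v h3 huv

/-- relations preserved when the first or the last argument increases -/
theorem triples (P : ℕ → ℕ → ℕ → Prop) : ∀ (p q : ℕ) (V : Finset ℕ),
    (p + q).choose p < V.card →
    (∀ a ∈ V, ∀ x ∈ V, ∀ y ∈ V, ∀ z ∈ V, a < x → x < y → y < z → P a y z → P x y z) →
    (∀ x ∈ V, ∀ y ∈ V, ∀ z ∈ V, ∀ b ∈ V, x < y → y < z → z < b → P x y z → P x y b) →
    (∃ S ⊆ V, S.card = p + 2 ∧ ∀ x ∈ S, ∀ y ∈ S, ∀ z ∈ S, x < y → y < z → P x y z) ∨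
    (∃ S ⊆ V, S.card = q + 2 ∧ ∀ x ∈ S, ∀ y ∈ S, ∀ z ∈ S, x < y → y < z → ¬ P x y z) := by
  classical
  have small : ∀ (V : Finset ℕ), V.card = 2 → ∀ x ∈ V, ∀ y ∈ V, ∀ z ∈ V, x < y → ¬ y < z := by
    intro V hV x hx y hy z hz h1 h2
    have : ({x, y, z} : Finset ℕ) ⊆ V := by
      intro w hw
      simp only [mem_insert, mem_singleton] at hw
      rcases hw with rfl | rfl | rfl <;> assumption
    have h3 := card_le_card this
    rw [card_insert_of_notMem (by simp; omega), card_insert_of_notMem (by simp; omega),
      card_singleton, hV] at h3
    omega
  intro p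
  induction p with
  | zero =>
    intro q V hV _ _
    left
    rw [Nat.choose_zero_right] at hV
    obtain ⟨S, hS, hSc⟩ := exists_subset_card_eq (show 2 ≤ V.card by omega)
    exact ⟨S, hS, hSc, fun x hx y hy z hz h1 h2 => absurd h2 (small S hSc x hx y hy z hz h1)⟩
  | succ p ihp =>
    intro q
    induction q with
    | zero =>
      intro V hV _ _
      right
      rw [Nat.add_zero, Nat.choose_self] at hV
      obtain ⟨S, hS, hSc⟩ := exists_subset_card_eq (show 2 ≤ V.card by omega)
      exact ⟨S, hS, hSc, fun x hx y hy z hz h1 h2 => absurd h2 (small S hSc x hx y hy z hz h1)⟩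
    | succ q ihq =>
      intro V hV h1 h3
      have hch : (p + 1 + (q + 1)).choose (p + 1) =
          (p + (q + 1)).choose p + (p + 1 + q).choose (p + 1) := by
        have e1 : p + 1 + (q + 1) = (p + (q + 1)) + 1 := by ring
        have e2 : p + 1 + q = p + (q + 1) := by ring
        rw [e1, e2, Nat.choose_succ_succ]
      have hpos : 0 < (p + (q + 1)).choose p := Nat.choose_pos (by omega)
      have hpos2 : 0 < (p + 1 + q).choose (p + 1) := Nat.choose_pos (by omega)
      have hne : V.Nonempty := card_pos.1 (by omega)
      set a := V.min' hne with ha
      set b := V.max' hne with hb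
      have haV : a ∈ V := V.min'_mem hne
      have hbV : b ∈ V := V.max'_mem hne
      have hmin : ∀ v ∈ V, a ≤ v := fun v hv => V.min'_le v hv
      have hmax : ∀ v ∈ V, v ≤ b := fun v hv => V.le_max' v hv
      have hab : a ≠ b := by
        intro h
        have : V ⊆ {a} := by
          intro v hv
          have e1 := hmin v hv
          have e2 := hmax v hv
          rw [mem_singleton]
          omega
        have := card_le_card this
        rw [card_singleton] at this
        omega
      set L := V.filter (fun y => y = a ∨ (y ≠ b ∧ P a y b)) with hL
      set R := V.filter (fun y => ¬ (y = a ∨ (y ≠ b ∧ P a y b))) with hR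
      have hc : L.card + R.card = V.card := card_filter_add_card_filter_not (s := V) _
      have hLV : L ⊆ V := filter_subset _ _
      have hRV : R ⊆ V := filter_subset _ _
      have hsub : ∀ W : Finset ℕ, W ⊆ V →
          (∀ a ∈ W, ∀ x ∈ W, ∀ y ∈ W, ∀ z ∈ W, a < x → x < y → y < z → P a y z → P x y z) ∧
          (∀ x ∈ W, ∀ y ∈ W, ∀ z ∈ W, ∀ b ∈ W, x < y → y < z → z < b → P x y z → P x y b) :=
        fun W hW => ⟨fun a ha x hx y hy z hz => h1 a (hW ha) x (hW hx) y (hW hy) z (hW hz),
          fun x hx y hy z hz b hb => h3 x (hW hx) y (hW hy) z (hW hz) b (hW hb)⟩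
      rcases Nat.lt_or_ge ((p + (q + 1)).choose p) L.card with hcase | hcase
      · rcases ihp (q + 1) L hcase (hsub L hLV).1 (hsub L hLV).2 with
          ⟨S, hS, hSc, hSP⟩ | ⟨S, hS, hSc, hSP⟩
        · left
          have hbS : b ∉ S := by
            intro h
            have := (mem_filter.1 (hS h)).2
            rcases this with h4 | h4
            · exact hab h4.symm
            · exact h4.1 rfl
          refine ⟨insert b S, ?_, by rw [card_insert_of_notMem hbS, hSc], ?_⟩
          · intro v hv
            rcases mem_insert.1 hv with h4 | h4
            · rw [h4]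
              exact hbV
            · exact hLV (hS h4)
          · intro x hx y hy z hz hxy hyz
            have hzV : z ≤ b := by
              rcases mem_insert.1 hz with h4 | h4
              · exact h4.le
              · exact hmax z (hLV (hS h4))
            have hxS : x ∈ S := by
              rcases mem_insert.1 hx with h4 | h4
              · omega
              · exact h4
            have hyS : y ∈ S := by
              rcases mem_insert.1 hy with h4 | h4
              · omega
              · exact h4
            rcases mem_insert.1 hz with h4 | h4
            · have hyL := (mem_filter.1 (hS hyS)).2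
              have hxV := hLV (hS hxS)
              have hax := hmin x hxV
              rcases hyL with h5 | h5
              · omega
              · rw [h4]
                rcases Nat.eq_or_lt_of_le hax with h6 | h6
                · rw [← h6]
                  exact h5.2
                · exact h1 a haV x hxV y (hLV (hS hyS)) b hbV h6 hxy (by omega) h5.2
            · exact hSP x hxS y hyS z h4 hxy hyz
        · exact Or.inr ⟨S, hS.trans hLV, hSc, hSP⟩
      · have hRc : (p + 1 + q).choose (p + 1) < R.card := by omega
        rcases ihq R hRc (hsub R hRV).1 (hsub R hRV).2 with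
          ⟨S, hS, hSc, hSP⟩ | ⟨S, hS, hSc, hSP⟩
        · exact Or.inl ⟨S, hS.trans hRV, hSc, hSP⟩
        · right
          have haS : a ∉ S := by
            intro h
            exact (mem_filter.1 (hS h)).2 (Or.inl rfl)
          refine ⟨insert a S, ?_, by rw [card_insert_of_notMem haS, hSc], ?_⟩
          · intro v hv
            rcases mem_insert.1 hv with h4 | h4
            · rw [h4]
              exact haV
            · exact hRV (hS h4)
          · intro x hx y hy z hz hxy hyz
            have hxa : a ≤ x := by
              rcases mem_insert.1 hx with h4 | h4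
              · exact h4.ge
              · exact hmin x (hRV (hS h4))
            have hyS : y ∈ S := by
              rcases mem_insert.1 hy with h4 | h4
              · omega
              · exact h4
            have hzS : z ∈ S := by
              rcases mem_insert.1 hz with h4 | h4
              · omega
              · exact h4
            rcases mem_insert.1 hx with h4 | h4
            · intro hP
              have hyR := (mem_filter.1 (hS hyS)).2
              have hzV := hRV (hS hzS)
              have hzb := hmax z hzV
              apply hyR
              right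
              refine ⟨by omega, ?_⟩
              rw [h4] at hP
              rcases Nat.eq_or_lt_of_le hzb with h6 | h6
              · rw [← h6]
                exact hP
              · exact h3 a haV y (hRV (hS hyS)) z hzV b hbV (by omega) hyz h6 hP
            · exact hSP x h4 y hyS z hzS hxy hyz

end Pool.Agent.H86.Mono
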