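import Mathlib

/-!
# Colourings which are monotone in every coordinate: definitions

Tuples are sequences `ℕ → ℕ`, of which only the first `r` values matter.
-/

set_option autoImplicit false

namespace Pool.Agent.H86.Mono

open Finset

/-- the first `r` values of `x` belong to `V` and increase -/
def Inc (r : ℕ) (V : Finset ℕ) (x : ℕ → ℕ) : Prop :=
  (∀ i, i < r → x i ∈ V) ∧ ∀ i, i + 1 < r → x i < x (i + 1)

/-- `c` depends on the first `r` values only -/
def Dep (r : ℕ) (c : (ℕ → ℕ) → Bool) : Prop := ∀ x y, (∀ i, i < r → x i = y i) → c x = c y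

/-- moving the coordinate `i` upwards preserves the colour `b` -/
def MonoAt (r : ℕ) (V : Finset ℕ) (c : (ℕ → ℕ) → Bool) (i : ℕ) (b : Bool) : Prop :=
  ∀ x y, Inc r V x → Inc r V y → (∀ j, j < r → j ≠ i → x j = y j) → x i ≤ y i → c x = b → c y = b

/-- all increasing `r`-tuples of `S` have the same colour -/
def Hom (r : ℕ) (c : (ℕ → ℕ) → Bool) (S : Finset ℕ) : Prop := ∃ b, ∀ x, Inc r S x → c x = b

/-- every monotone colouring (signs `ε`) of at least `N` vertices has a homogeneous set of size `n` -/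
def Arr (r : ℕ) (ε : ℕ → Bool) (N n : ℕ) : Prop :=
  ∀ (V : Finset ℕ) (c : (ℕ → ℕ) → Bool), N ≤ V.card → Dep r c →
    (∀ i, i < r → MonoAt r V c i (ε i)) → ∃ S ⊆ V, S.card = n ∧ Hom r c S

theorem Inc.mono {r : ℕ} {V W : Finset ℕ} {x : ℕ → ℕ} (h : Inc r V x) (hVW : V ⊆ W) : Inc r W x :=
  ⟨fun i hi => hVW (h.1 i hi), h.2⟩

theorem Inc.lt {r : ℕ} {V : Finset ℕ} {x : ℕ → ℕ} (h : Inc r V x) {i j : ℕ} (hij : i < j)
    (hj : j < r) : x i < x j := by
  induction j with
  | zero => omega
  | succ j ih =>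
    have h1 := h.2 j hj
    rcases Nat.lt_or_ge i j with h2 | h2
    · exact (ih h2 (by omega)).trans h1
    · have : i = j := by omega
      rw [this]
      exact h1

end Pool.Agent.H86.Mono
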