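import Pool.Agent.H86.Mono.Low

/-!
# The exact value for triples
-/

set_option autoImplicit false

namespace Pool.Agent.H86.Mono

open Finset

/-- the extremal colourings of triples -/
def col : ℕ → ℕ → (ℕ → ℕ) → Bool
  | 0, _, _ => true
  | _ + 1, 0, _ => true
  | p + 1, q + 1, x =>
    if x 2 < (p + (q + 1)).choose p then col p (q + 1) x
    else if x 1 < (p + (q + 1)).choose p then true
    else if x 0 < (p + (q + 1)).choose p then false
    else col (p + 1) q (fun i => x i - (p + (q + 1)).choose p)

theorem col_aaa {p q : ℕ} {x : ℕ → ℕ} (h : x 2 < (p + (q + 1)).choose p) :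
    col (p + 1) (q + 1) x = col p (q + 1) x := by
  rw [col, if_pos h]

theorem col_aab {p q : ℕ} {x : ℕ → ℕ} (h2 : (p + (q + 1)).choose p ≤ x 2)
    (h1 : x 1 < (p + (q + 1)).choose p) : col (p + 1) (q + 1) x = true := by
  rw [col, if_neg (not_lt.2 h2), if_pos h1]

theorem col_abb {p q : ℕ} {x : ℕ → ℕ} (h2 : (p + (q + 1)).choose p ≤ x 2)
    (h1 : (p + (q + 1)).choose p ≤ x 1) (h0 : x 0 < (p + (q + 1)).choose p) :
    col (p + 1) (q + 1) x = false := by
  rw [col, if_neg (not_lt.2 h2), if_neg (not_lt.2 h1), if_pos h0]

theorem col_bbb {p q : ℕ} {x : ℕ → ℕ} (h2 : (p + (q + 1)).choose p ≤ x 2)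
    (h1 : (p + (q + 1)).choose p ≤ x 1) (h0 : (p + (q + 1)).choose p ≤ x 0) :
    col (p + 1) (q + 1) x = col (p + 1) q (fun i => x i - (p + (q + 1)).choose p) := by
  rw [col, if_neg (not_lt.2 h2), if_neg (not_lt.2 h1), if_neg (not_lt.2 h0)]

theorem choose_step (p q : ℕ) : (p + 1 + (q + 1)).choose (p + 1) =
    (p + (q + 1)).choose p + (p + 1 + q).choose (p + 1) := by
  rw [show p + 1 + (q + 1) = (p + (q + 1)) + 1 by ring, Nat.choose_succ_succ,
    show p + 1 + q = p + (q + 1) by ring]

theorem inc3 {V : Finset ℕ} {x : ℕ → ℕ} (h0 : x 0 ∈ V) (h1 : x 1 ∈ V) (h2 : x 2 ∈ V)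
    (h01 : x 0 < x 1) (h12 : x 1 < x 2) : Inc 3 V x := by
  refine ⟨fun i hi => ?_, fun i hi => ?_⟩
  · have : i = 0 ∨ i = 1 ∨ i = 2 := by omega
    rcases this with rfl | rfl | rfl <;> assumption
  · have : i = 0 ∨ i = 1 := by omega
    rcases this with rfl | rfl <;> assumption

theorem col_dep (p : ℕ) : ∀ q, Dep 3 (col p q) := by
  induction p with
  | zero => intro q x y _; rw [col, col]
  | succ p ihp =>
    intro q
    induction q with
    | zero => intro x y _; rw [col, col]
    | succ q ihq =>
      intro x y h
      have h0 := h 0 (by norm_num)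
      have h1 := h 1 (by norm_num)
      have h2 := h 2 (by norm_num)
      rw [col, col, h0, h1, h2, ihp (q + 1) x y h,
        ihq (fun i => x i - (p + (q + 1)).choose p) (fun i => y i - (p + (q + 1)).choose p)
          (fun i hi => by rw [h i hi])]

theorem col_mono (p : ℕ) : ∀ q, ∀ i, i < 3 →
    MonoAt 3 (range ((p + q).choose p)) (col p q) i (decide (i % 2 = 0)) := by
  induction p with
  | zero => intro q i _ x y _ _ _ _ h; rw [col] at h ⊢; exact h
  | succ p ihp =>
    intro q
    induction q with
    | zero => intro i _ x y _ _ _ _ h; rw [col] at h ⊢; exact h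
    | succ q ihq =>
      intro i hi x y hx hy hxy hle hcx
      set m := (p + (q + 1)).choose p with hm
      have hx01 : x 0 < x 1 := hx.2 0 (by norm_num)
      have hx12 : x 1 < x 2 := hx.2 1 (by norm_num)
      have hy01 : y 0 < y 1 := hy.2 0 (by norm_num)
      have hy12 : y 1 < y 2 := hy.2 1 (by norm_num)
      have hx2 := mem_range.1 (hx.1 2 (by norm_num))
      have hy2 := mem_range.1 (hy.1 2 (by norm_num))
      rw [choose_step, ← hm] at hx2 hy2
      -- both in the first part
      have hA : x 2 < m → y 2 < m → col (p + 1) (q + 1) y = decide (i % 2 = 0) := by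
        intro a1 a2
        rw [col_aaa a1] at hcx
        rw [col_aaa a2]
        exact ihp (q + 1) i hi x y
          (inc3 (mem_range.2 (by omega)) (mem_range.2 (by omega)) (mem_range.2 a1) hx01 hx12)
          (inc3 (mem_range.2 (by omega)) (mem_range.2 (by omega)) (mem_range.2 a2) hy01 hy12)
          hxy hle hcx
      have hB : m ≤ x 0 → m ≤ y 0 → col (p + 1) (q + 1) y = decide (i % 2 = 0) := by
        intro a1 a2
        rw [col_bbb (by omega) (by omega) a1] at hcx
        rw [col_bbb (by omega) (by omega) a2]
        refine ihq i hi (fun i => x i - m) (fun i => y i - m)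
          (inc3 (mem_range.2 (by omega)) (mem_range.2 (by omega)) (mem_range.2 (by omega))
            (by omega) (by omega))
          (inc3 (mem_range.2 (by omega)) (mem_range.2 (by omega)) (mem_range.2 (by omega))
            (by omega) (by omega))
          (fun j hj hji => by rw [hxy j hj hji]) (by omega) hcx
      have hi' : i = 0 ∨ i = 1 ∨ i = 2 := by omega
      rcases hi' with rfl | rfl | rfl
      · have e1 := hxy 1 (by norm_num) (by norm_num)
        have e2 := hxy 2 (by norm_num) (by norm_num)
        rcases Nat.lt_or_ge (x 2) m with a2 | a2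
        · exact hA a2 (by omega)
        · rcases Nat.lt_or_ge (x 1) m with a1 | a1
          · exact col_aab (by omega) (by omega)
          · rcases Nat.lt_or_ge (x 0) m with a0 | a0
            · rw [col_abb a2 a1 a0] at hcx
              exact absurd hcx (by simp)
            · exact hB a0 (by omega)
      · have e0 := hxy 0 (by norm_num) (by norm_num)
        have e2 := hxy 2 (by norm_num) (by norm_num)
        rcases Nat.lt_or_ge (x 2) m with a2 | a2
        · exact hA a2 (by omega)
        · rcases Nat.lt_or_ge (x 1) m with a1 | a1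
          · rw [col_aab a2 a1] at hcx
            exact absurd hcx (by simp)
          · rcases Nat.lt_or_ge (x 0) m with a0 | a0
            · exact col_abb (by omega) (by omega) (by omega)
            · exact hB a0 (by omega)
      · have e0 := hxy 0 (by norm_num) (by norm_num)
        have e1 := hxy 1 (by norm_num) (by norm_num)
        rcases Nat.lt_or_ge (x 2) m with a2 | a2
        · rcases Nat.lt_or_ge (y 2) m with b2 | b2
          · exact hA a2 b2
          · exact col_aab b2 (by omega)
        · rcases Nat.lt_or_ge (x 1) m with a1 | a1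
          · exact col_aab (by omega) (by omega)
          · rcases Nat.lt_or_ge (x 0) m with a0 | a0
            · rw [col_abb a2 a1 a0] at hcx
              exact absurd hcx (by simp)
            · exact hB a0 (by omega)

theorem col_hom (p : ℕ) : ∀ q, ∀ S ⊆ range ((p + q).choose p),
    ((∀ x, Inc 3 S x → col p q x = true) → S.card ≤ p + 1) ∧
    ((∀ x, Inc 3 S x → col p q x = false) → S.card ≤ q + 1) := by
  induction p with
  | zero =>
    intro q S hS
    have := card_le_card hS
    rw [card_range, Nat.choose_zero_right] at this
    exact ⟨fun _ => this, fun _ => by omega⟩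
  | succ p ihp =>
    intro q
    induction q with
    | zero =>
      intro S hS
      have := card_le_card hS
      rw [card_range, add_zero, Nat.choose_self] at this
      exact ⟨fun _ => by omega, fun _ => this⟩
    | succ q ihq =>
      intro S hS
      set m := (p + (q + 1)).choose p with hm
      have hS' : ∀ v ∈ S, v < m + (p + 1 + q).choose (p + 1) := by
        intro v hv
        have := mem_range.1 (hS hv)
        rwa [choose_step, ← hm] at this
      set SA := S.filter (fun v => v < m) with hSA
      set SB := S.filter (fun v => ¬ v < m) with hSB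
      have hcard : S.card = SA.card + SB.card := (card_filter_add_card_filter_not _).symm
      have hAr : SA ⊆ range ((p + (q + 1)).choose p) := fun v hv =>
        mem_range.2 (mem_filter.1 hv).2
      have hBr : SB.image (fun v => v - m) ⊆ range ((p + 1 + q).choose (p + 1)) := by
        intro v hv
        obtain ⟨w, hw, rfl⟩ := mem_image.1 hv
        have h1 := mem_filter.1 hw
        have h2 := hS' w h1.1
        rw [mem_range]
        omega
      have hBc : (SB.image (fun v => v - m)).card = SB.card := by
        refine card_image_of_injOn (fun u hu v hv huv => ?_)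
        have h1 := (mem_filter.1 hu).2
        have h2 := (mem_filter.1 hv).2
        have h3 : u - m = v - m := huv
        omega
      -- transfer of the colour
      have hAcol : ∀ b, (∀ x, Inc 3 S x → col (p + 1) (q + 1) x = b) →
          ∀ x, Inc 3 SA x → col p (q + 1) x = b := by
        intro b hb x hx
        have h1 := hb x (hx.mono (filter_subset _ _))
        rwa [col_aaa (mem_filter.1 (hx.1 2 (by norm_num))).2] at h1
      have hBcol : ∀ b, (∀ x, Inc 3 S x → col (p + 1) (q + 1) x = b) →
          ∀ x, Inc 3 (SB.image (fun v => v - m)) x → col (p + 1) q x = b := by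
        intro b hb x hx
        have hmem : ∀ i, i < 3 → x i + m ∈ SB := by
          intro i hi
          obtain ⟨w, hw, hw'⟩ := mem_image.1 (hx.1 i hi)
          have h1 := (mem_filter.1 hw).2
          rw [← hw', Nat.sub_add_cancel (by omega)]
          exact hw
        have h1 := hb (fun i => x i + m) ⟨fun i hi => (mem_filter.1 (hmem i hi)).1,
          fun i hi => by have := hx.2 i hi; show x i + m < x (i + 1) + m; omega⟩
        rw [col_bbb (Nat.le_add_left _ _) (Nat.le_add_left _ _) (Nat.le_add_left _ _)] at h1
        rw [← h1]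
        exact col_dep (p + 1) q _ _ (fun i _ => (Nat.add_sub_cancel _ _).symm)
      have hAne : ∀ x : ℕ → ℕ, x 0 ∈ SA → x 1 ∈ SB → x 2 ∈ SB → x 1 < x 2 →
          Inc 3 S x ∧ col (p + 1) (q + 1) x = false := by
        intro x h0 h1 h2 h12
        have a0 := mem_filter.1 h0
        have a1 := mem_filter.1 h1
        have a2 := mem_filter.1 h2
        exact ⟨inc3 a0.1 a1.1 a2.1 (by omega) h12, col_abb (by omega) (by omega) a0.2⟩
      have hBne : ∀ x : ℕ → ℕ, x 0 ∈ SA → x 1 ∈ SA → x 2 ∈ SB → x 0 < x 1 →
          Inc 3 S x ∧ col (p + 1) (q + 1) x = true := by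
        intro x h0 h1 h2 h01
        have a0 := mem_filter.1 h0
        have a1 := mem_filter.1 h1
        have a2 := mem_filter.1 h2
        exact ⟨inc3 a0.1 a1.1 a2.1 h01 (by omega), col_aab (by omega) a1.2⟩
      have htwo : ∀ T : Finset ℕ, 2 ≤ T.card → ∃ u ∈ T, ∃ v ∈ T, u < v := by
        intro T hT
        obtain ⟨u, hu, v, hv, huv⟩ := one_lt_card.1 hT
        rcases Nat.lt_or_gt_of_ne huv with h | h
        · exact ⟨u, hu, v, hv, h⟩
        · exact ⟨v, hv, u, hu, h⟩
      constructor
      · intro hb
        have h1 := (ihp (q + 1) SA hAr).1 (hAcol true hb)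
        have h2 := (ihq _ hBr).1 (hBcol true hb)
        rw [hBc] at h2
        rcases SA.eq_empty_or_nonempty with he | ⟨a, ha⟩
        · rw [he, card_empty] at hcard
          omega
        · have h3 : SB.card ≤ 1 := by
            by_contra h3
            obtain ⟨u, hu, v, hv, huv⟩ := htwo SB (by omega)
            obtain ⟨h4, h5⟩ := hAne (tr a u v) (by simpa [tr] using ha) (by simpa [tr] using hu)
              (by simpa [tr] using hv) (by simpa [tr] using huv)
            rw [hb _ h4] at h5
            exact absurd h5 (by simp)
          omega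
      · intro hb
        have h1 := (ihp (q + 1) SA hAr).2 (hAcol false hb)
        have h2 := (ihq _ hBr).2 (hBcol false hb)
        rw [hBc] at h2
        rcases SB.eq_empty_or_nonempty with he | ⟨a, ha⟩
        · rw [he, card_empty] at hcard
          omega
        · have h3 : SA.card ≤ 1 := by
            by_contra h3
            obtain ⟨u, hu, v, hv, huv⟩ := htwo SA (by omega)
            obtain ⟨h4, h5⟩ := hBne (tr u v a) (by simpa [tr] using hu) (by simpa [tr] using hv)
              (by simpa [tr] using ha) (by simpa [tr] using huv)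
            rw [hb _ h4] at h5
            exact absurd h5 (by simp)
          omega

theorem not_arr_three {ε : ℕ → Bool} (h0 : ε 0 ≠ ε 1) (h1 : ε 1 ≠ ε 2) {n : ℕ} (hn : 2 ≤ n) :
    ¬ Arr 3 ε ((2 * n - 4).choose (n - 2)) n := by
  have hV : (2 * n - 4).choose (n - 2) ≤ (range ((n - 2 + (n - 2)).choose (n - 2))).card := by
    rw [card_range, show n - 2 + (n - 2) = 2 * n - 4 by omega]
  have hs := alt_sign (K := 2) (ε := ε) (fun i hi => by
    have : i = 0 ∨ i = 1 := by omega
    rcases this with rfl | rfl
    · exact h0
    · exact h1)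
  have hdec : ∀ i : ℕ, decide (i % 2 = 0) = !decide (i % 2 = 1) := by
    intro i
    rcases Nat.mod_two_eq_zero_or_one i with h4 | h4 <;> simp [h4]
  have hhom : ∀ S ⊆ range ((n - 2 + (n - 2)).choose (n - 2)), S.card = n →
      ¬ Hom 3 (col (n - 2) (n - 2)) S := by
    intro S hS hc ⟨b, hb⟩
    obtain ⟨g1, g2⟩ := col_hom (n - 2) (n - 2) S hS
    cases b with
    | true =>
      have := g1 hb
      omega
    | false =>
      have := g2 hb
      omega
  cases h2 : ε 0 with
  | true =>
    refine not_arr hV (col_dep _ _) (fun i hi => ?_) hhom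
    have := col_mono (n - 2) (n - 2) i hi
    rw [hdec] at this
    rw [hs i (by omega), h2, Bool.true_xor]
    exact this
  | false =>
    refine not_arr (c := fun x => !(col (n - 2) (n - 2) x)) hV ?_ (fun i hi => ?_)
      (fun S hS hSc hh => hhom S hS hSc (hom_not hh))
    · intro x y hxy
      simp only [col_dep _ _ x y hxy]
    · have := monoAt_not (col_mono (n - 2) (n - 2) i hi)
      rw [hdec, Bool.not_not] at this
      rw [hs i (by omega), h2, Bool.false_xor]
      exact this

end Pool.Agent.H86.Mono
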