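import Pool.Agent.H86.Mono.Upper

/-!
# Upper bounds: the height is one less than the number of sign changes
-/

set_option autoImplicit false

namespace Pool.Agent.H86.Mono

open Finset

/-- the tower function: `tow 0 x = x`, `tow (k+1) x = 2 ^ tow k x` -/
def tow : ℕ → ℕ → ℕ
  | 0, x => x
  | k + 1, x => 2 ^ tow k x

/-- the scale: linear, quadratic, then towers of height `1, 2, …` -/
def B : ℕ → ℕ → ℕ
  | 0, x => x
  | 1, x => x ^ 2
  | k + 2, x => tow (k + 1) x

/-- the number of sign changes of the pattern `ε 0, …, ε r` (so `r + 1` coordinates) -/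
def chg (r : ℕ) (ε : ℕ → Bool) : ℕ := ∑ i ∈ range r, if ε i = ε (i + 1) then 0 else 1

theorem tow_mono (k : ℕ) {x y : ℕ} (h : x ≤ y) : tow k x ≤ tow k y := by
  induction k with
  | zero => exact h
  | succ k ih => exact Nat.pow_le_pow_right (by norm_num) ih

theorem le_tow (k x : ℕ) : x ≤ tow k x := by
  induction k with
  | zero => exact le_rfl
  | succ k ih => exact ih.trans (Nat.lt_two_pow_self).le

theorem mul_two_pow_le {m t : ℕ} (hm : 1 ≤ m) (ht : 1 ≤ t) : m * 2 ^ t ≤ 2 ^ (m * t) := by
  obtain ⟨k, rfl⟩ : ∃ k, m = k + 1 := ⟨m - 1, by omega⟩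
  have h1 : k + 1 ≤ 2 ^ k := Nat.lt_two_pow_self
  have h2 : 2 ^ k ≤ 2 ^ (k * t) := Nat.pow_le_pow_right (by norm_num) (by nlinarith)
  calc (k + 1) * 2 ^ t ≤ 2 ^ (k * t) * 2 ^ t := Nat.mul_le_mul_right _ (h1.trans h2)
    _ = 2 ^ ((k + 1) * t) := by rw [← pow_add]; ring_nf

theorem mul_tow_le (k : ℕ) {m x : ℕ} (hm : 1 ≤ m) (hx : 1 ≤ x) : m * tow k x ≤ tow k (m * x) := by
  induction k with
  | zero => exact le_rfl
  | succ k ih =>
    exact (mul_two_pow_le hm (hx.trans (le_tow k x))).trans
      (Nat.pow_le_pow_right (by norm_num) ih)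

theorem mul_B_le (s : ℕ) {m x : ℕ} (hm : 1 ≤ m) (hx : 1 ≤ x) : m * B s x ≤ B s (m * x) := by
  match s with
  | 0 => exact le_rfl
  | 1 =>
    simp only [B]
    rw [mul_pow]
    exact Nat.mul_le_mul_right _ (by nlinarith)
  | k + 2 => exact mul_tow_le (k + 1) hm hx

theorem chg_merge {i : ℕ} {ε : ℕ → Bool} (hε : ε i = ε (i + 1)) {r : ℕ} (hr : i ≤ r) :
    chg r (fun j => if j ≤ i then ε j else ε (j + 1)) = chg (r + 1) ε := by
  induction r, hr using Nat.le_induction with
  | base =>
    unfold chg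
    rw [sum_range_succ _ i, if_pos hε, add_zero]
    refine sum_congr rfl (fun j hj => ?_)
    have h1 : j ≤ i := (mem_range.1 hj).le
    have h2 : j + 1 ≤ i := mem_range.1 hj
    simp only [h1, h2, if_true]
  | succ r hr ih =>
    unfold chg at ih ⊢
    rw [sum_range_succ, ih, sum_range_succ _ (r + 1)]
    congr 1
    have h1 : ¬ r + 1 ≤ i := by omega
    rcases Nat.eq_or_lt_of_le hr with h | h
    · subst h
      simp only [h1, le_refl, if_true, if_false, hε]
    · have h2 : ¬ r ≤ i := by omega
      simp only [h1, h2, if_false]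

theorem chg_alt {r : ℕ} {ε : ℕ → Bool} (h : ∀ i, i < r → ε i ≠ ε (i + 1)) : chg r ε = r := by
  unfold chg
  rw [sum_congr rfl (fun i hi => if_neg (h i (mem_range.1 hi)))]
  simp

theorem upper (r : ℕ) : ∀ ε : ℕ → Bool, ∃ C, 1 ≤ C ∧ ∀ n, 1 ≤ n →
    Arr (r + 1) ε (B (chg r ε) (C * n)) n := by
  induction r with
  | zero =>
    intro ε
    exact ⟨2, by norm_num, fun n _ => arr_one ε n⟩
  | succ r ih =>
    intro ε
    by_cases h : ∃ i, i < r + 1 ∧ ε i = ε (i + 1)
    · obtain ⟨i, hi, hε⟩ := h
      obtain ⟨C, hC, h⟩ := ih (fun j => if j ≤ i then ε j else ε (j + 1))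
      refine ⟨2 * C, by omega, fun n hn => ?_⟩
      refine arr_mono (arr_merge hi hε (h n hn)) ?_
      rw [chg_merge hε (by omega : i ≤ r), mul_assoc]
      exact mul_B_le _ (by norm_num) (Nat.mul_pos hC hn)
    · have h' : ∀ i, i < r + 1 → ε i ≠ ε (i + 1) := fun i hi he => h ⟨i, hi, he⟩
      rw [chg_alt h']
      match r with
      | 0 =>
        refine ⟨1, le_rfl, fun n _ => ?_⟩
        refine arr_mono (arr_two ε n) ?_
        simp [B, pow_two]
      | 1 =>
        refine ⟨2, by norm_num, fun n _ => ?_⟩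
        have h0 := h' 0 (by norm_num)
        have h1 := h' 1 (by norm_num)
        have h2 : ε 0 = ε 2 := by
          revert h0 h1
          generalize ε 0 = a
          simp only [zero_add]
          generalize ε 1 = b
          simp only [show 1 + 1 = 2 from rfl]
          generalize ε 2 = d
          revert a b d
          decide
        refine arr_mono (arr_three' ε h2 n) ?_
        simp only [B, tow]
        rw [pow_mul]
        norm_num
      | k + 2 =>
        obtain ⟨C, hC, h⟩ := ih ε
        rw [chg_alt (fun i hi => h' i (by omega))] at h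
        refine ⟨(k + 5) * C, Nat.mul_pos (by omega) hC, fun n hn => ?_⟩
        refine arr_mono (arr_succ (by omega) (h n hn)) ?_
        have hCn : 1 ≤ C * n := Nat.mul_pos hC hn
        have hM2 : 2 ≤ B (k + 2) (C * n) := by
          simp only [B, tow]
          calc 2 = 2 ^ 1 := by norm_num
            _ ≤ 2 ^ tow k (C * n) := Nat.pow_le_pow_right (by norm_num) (hCn.trans (le_tow _ _))
        set M := B (k + 2) (C * n) with hM
        have e1 : (2 * 2 ^ (M ^ (k + 2 + 1))) ^ M = 2 ^ ((1 + M ^ (k + 3)) * M) := by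
          rw [pow_mul]
          congr 1
          rw [pow_add 2 1, pow_one]
        have e2 : (1 + M ^ (k + 3)) * M ≤ M ^ (k + 5) := by
          have h1 : 1 ≤ M ^ (k + 3) := Nat.one_le_pow _ _ (by omega)
          have h2 : M ^ (k + 5) = M ^ (k + 3) * M * M := by ring
          rw [h2]
          have h3 : (1 + M ^ (k + 3)) * M ≤ (M ^ (k + 3) * 2) * M :=
            Nat.mul_le_mul_right _ (by omega)
          calc (1 + M ^ (k + 3)) * M ≤ (M ^ (k + 3) * 2) * M := h3
            _ ≤ (M ^ (k + 3) * M) * M := Nat.mul_le_mul_right _ (Nat.mul_le_mul_left _ hM2)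
        have e3 : M ^ (k + 5) ≤ tow (k + 1) ((k + 5) * C * n) := by
          simp only [hM, B, tow]
          rw [← pow_mul, mul_assoc (k + 5)]
          refine Nat.pow_le_pow_right (by norm_num) ?_
          rw [mul_comm (tow k (C * n))]
          exact mul_tow_le k (by omega) hCn
        rw [e1]
        simp only [B]
        rw [show tow (k + 1 + 1) ((k + 5) * C * n) = 2 ^ tow (k + 1) ((k + 5) * C * n) from rfl]
        exact Nat.pow_le_pow_right (by norm_num) (e2.trans e3)

end Pool.Agent.H86.Mono
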