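import Pool.Agent.H86.Mono.Step
import Pool.Agent.H86.Mono.Tow

/-!
# Lower bounds
-/

set_option autoImplicit false

namespace Pool.Agent.H86.Mono

open Finset
open Pool.Agent.TH138.NF (hd hd_ne hd_max hd_lt)

theorem hom_sub {r : ℕ} {c : (ℕ → ℕ) → Bool} {S T : Finset ℕ} (h : Hom r c S) (hT : T ⊆ S) :
    Hom r c T := by
  obtain ⟨b, hb⟩ := h
  exact ⟨b, fun x hx => hb x (hx.mono hT)⟩

theorem no_hom_ge {r n m : ℕ} {c : (ℕ → ℕ) → Bool} {V : Finset ℕ}
    (h : ∀ S ⊆ V, S.card = n → ¬ Hom r c S) (hm : n ≤ m) : ∀ S ⊆ V, S.card = m → ¬ Hom r c S := by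
  intro S hS hc hhom
  obtain ⟨T, hT, hTc⟩ := exists_subset_card_eq (hm.trans hc.ge)
  exact h T (hT.trans hS) hTc (hom_sub hhom hT)

/-- the base colouring of triples -/
def base3 (x : ℕ → ℕ) : Bool := decide (hd (x 0) (x 1) < hd (x 1) (x 2))

theorem base3_dep : Dep 3 base3 := by
  intro x y h
  unfold base3
  rw [h 0 (by norm_num), h 1 (by norm_num), h 2 (by norm_num)]

theorem base3_mono (M : ℕ) :
    ∀ i, i < 3 → MonoAt 3 (range (2 ^ M)) base3 i (decide (i % 2 = 0)) := by
  intro i hi x y hx hy hxy hle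
  have hmv := dd_move hx hy hxy hle
  have h0 := hmv 0 (by norm_num)
  have h1 := hmv 1 (by norm_num)
  have n1 := (dd_facts hx).2 0 (by norm_num)
  have n2 := (dd_facts hy).2 0 (by norm_num)
  simp only [dd, zero_add] at h0 h1 n1 n2
  have e2 : (1 : ℕ) + 1 = 2 := rfl
  rw [e2] at h1 n1 n2
  unfold base3
  have hi' : i = 0 ∨ i = 1 ∨ i = 2 := by omega
  rcases hi' with rfl | rfl | rfl
  · have a1 := h0.2 (by norm_num)
    have a2 := h1.1 (by norm_num)
    simp only [Nat.zero_mod, decide_true, decide_eq_true_eq]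
    omega
  · have a1 := h0.1 (by norm_num)
    have a2 := h1.2 (by norm_num)
    simp only [Nat.one_mod, one_ne_zero, decide_false, decide_eq_false_iff_not]
    omega
  · have a1 := h0.2 (by norm_num)
    have a2 := h1.1 (by norm_num)
    simp only [Nat.mod_self, decide_true, decide_eq_true_eq]
    omega

theorem base3_hom (M : ℕ) (hM : 1 ≤ M) :
    ∀ S ⊆ range (2 ^ M), S.card = M + 2 → ¬ Hom 3 base3 S := by
  intro S hS hc ⟨b, hb⟩
  obtain ⟨x, hxS, hxm⟩ := enum S
  rw [hc] at hxS hxm
  set e : ℕ → ℕ := fun i => hd (x i) (x (i + 1)) with he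
  have hlt : ∀ i, i < M + 1 → e i < M := fun i hi =>
    hd_lt (hxm _ _ (by omega) (by omega)) (mem_range.1 (hS (hxS _ (by omega))))
  have hwin : ∀ i, i < M → Inc 3 S (fun l => x (i + l)) := fun i hi =>
    ⟨fun l hl => hxS _ (by omega), fun l hl => hxm _ _ (by omega) (by omega)⟩
  have hne : ∀ i, i < M → e i ≠ e (i + 1) := fun i hi =>
    hd_ne (hxm i (i + 1) (by omega) (by omega)) (hxm (i + 1) (i + 1 + 1) (by omega) (by omega))
  have hval : ∀ i, i < M → decide (e i < e (i + 1)) = b := fun i hi => hb _ (hwin i hi)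
  cases b with
  | true =>
    have h1 : ∀ i, i ≤ M → i ≤ e i := by
      intro i
      induction i with
      | zero => intro _; exact Nat.zero_le _
      | succ i ih =>
        intro hi
        have h2 := of_decide_eq_true (hval i (by omega))
        have h3 := ih (by omega)
        omega
    have h4 := h1 M le_rfl
    have h5 := hlt M (by omega)
    omega
  | false =>
    have h1 : ∀ i, i ≤ M → e i + i < M := by
      intro i
      induction i with
      | zero =>
        intro _
        have := hlt 0 (by omega)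
        omega
      | succ i ih =>
        intro hi
        have h2 := of_decide_eq_false (hval i (by omega))
        have h3 := ih (by omega)
        have h4 := hne i (by omega)
        omega
    have h4 := h1 M le_rfl
    omega

/-- alternating signs -/
theorem alt_lower (q : ℕ) : ∃ C, 2 ≤ C ∧ ∀ n, 1 ≤ n → ∃ φ, Dep (q + 3) φ ∧
    (∀ i, i < q + 3 → MonoAt (q + 3) (range (tow (q + 1) n)) φ i (decide (i % 2 = 0))) ∧
    ∀ S ⊆ range (tow (q + 1) n), S.card = C * n → ¬ Hom (q + 3) φ S := by
  induction q with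
  | zero =>
    refine ⟨3, by norm_num, fun n hn => ⟨base3, base3_dep, base3_mono n, ?_⟩⟩
    exact no_hom_ge (base3_hom n hn) (by omega)
  | succ q ih =>
    obtain ⟨C, hC, h⟩ := ih
    refine ⟨2 * C + q, by omega, fun n hn => ?_⟩
    obtain ⟨φ, h1, h2, h3⟩ := h n hn
    refine ⟨stepc q φ, stepc_dep h1, stepc_mono h1 h2, ?_⟩
    refine no_hom_ge (step_lower h1 (tow (q + 1) n) (C * n) (by nlinarith) h3) ?_
    nlinarith

theorem not_arr {r : ℕ} {ε : ℕ → Bool} {N n : ℕ} {V : Finset ℕ} {c : (ℕ → ℕ) → Bool}
    (hV : N ≤ V.card) (hc : Dep r c) (hm : ∀ i, i < r → MonoAt r V c i (ε i))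
    (h : ∀ S ⊆ V, S.card = n → ¬ Hom r c S) : ¬ Arr r ε N n := by
  intro hA
  obtain ⟨S, hS, hSc, hhom⟩ := hA V c hV hc hm
  exact h S hS hSc hhom

theorem monoAt_not {r : ℕ} {V : Finset ℕ} {c : (ℕ → ℕ) → Bool} {i : ℕ} {b : Bool}
    (h : MonoAt r V c i b) : MonoAt r V (fun x => !(c x)) i (!b) := by
  intro x y hx hy hxy hle hcx
  have h1 : c x = b := by
    simp only at hcx
    rw [← Bool.not_not (c x), hcx, Bool.not_not]
  have h2 := h x y hx hy hxy hle h1
  simp only [h2]

theorem hom_not {r : ℕ} {c : (ℕ → ℕ) → Bool} {S : Finset ℕ} (h : Hom r (fun x => !(c x)) S) :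
    Hom r c S := by
  obtain ⟨b, hb⟩ := h
  refine ⟨!b, fun x hx => ?_⟩
  rw [← hb x hx, Bool.not_not]

theorem alt_sign {K : ℕ} {ε : ℕ → Bool} (h : ∀ i, i < K → ε i ≠ ε (i + 1)) :
    ∀ i, i ≤ K → ε i = (ε 0 ^^ decide (i % 2 = 1)) := by
  intro i
  induction i with
  | zero => intro _; simp
  | succ i ih =>
    intro hi
    have h1 := ih (by omega)
    have h2 := h i (by omega)
    have h3 : ε (i + 1) = !(ε i) := bnot (Ne.symm h2)
    rw [h3, h1]
    rcases Nat.mod_two_eq_zero_or_one i with h4 | h4
    · rw [decide_eq_false (by omega : ¬ i % 2 = 1), decide_eq_true (by omega : (i + 1) % 2 = 1)]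
      simp
    · rw [decide_eq_true (by omega : i % 2 = 1), decide_eq_false (by omega : ¬ (i + 1) % 2 = 1)]
      simp

theorem alt_not_arr (q : ℕ) {ε : ℕ → Bool} (h : ∀ i, i < q + 2 → ε i ≠ ε (i + 1)) :
    ∃ C, 1 ≤ C ∧ ∀ n, 1 ≤ n → ¬ Arr (q + 3) ε (tow (q + 1) n) (C * n) := by
  obtain ⟨C, hC, hl⟩ := alt_lower q
  refine ⟨C, by omega, fun n hn => ?_⟩
  obtain ⟨φ, h1, h2, h3⟩ := hl n hn
  have hs := alt_sign h
  have hdec : ∀ i : ℕ, decide (i % 2 = 0) = !decide (i % 2 = 1) := by
    intro i
    rcases Nat.mod_two_eq_zero_or_one i with h4 | h4 <;> simp [h4]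
  cases h0 : ε 0 with
  | true =>
    refine not_arr (by rw [card_range]) h1 (fun i hi => ?_) h3
    have := h2 i hi
    rw [hdec] at this
    rw [hs i (by omega), h0, Bool.true_xor]
    exact this
  | false =>
    refine not_arr (c := fun x => !(φ x)) (by rw [card_range]) ?_ (fun i hi => ?_)
      (fun S hS hSc hh => h3 S hS hSc (hom_not hh))
    · intro x y hxy
      simp only [h1 x y hxy]
    · have := monoAt_not (h2 i hi)
      rw [hdec, Bool.not_not] at this
      rw [hs i (by omega), h0, Bool.false_xor]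
      exact this

/-- merging, lower bound -/
theorem not_arr_merge {r i : ℕ} (hi : i < r) {ε : ℕ → Bool} {N n : ℕ}
    (h : ¬ Arr r (fun j => if j ≤ i then ε j else ε (j + 1)) N n) : ¬ Arr (r + 1) ε N (2 * n) := by
  classical
  intro hA
  apply h
  intro V φ hV hφ hm
  let del : (ℕ → ℕ) → (ℕ → ℕ) := fun x j => if j ≤ i then x j else x (j + 1)
  have hdel : ∀ x, Inc (r + 1) V x → Inc r V (del x) := by
    intro x hx
    refine ⟨fun j hj => ?_, fun j hj => ?_⟩
    · simp only [del]
      split_ifs
      · exact hx.1 j (by omega)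
      · exact hx.1 (j + 1) (by omega)
    · simp only [del]
      split_ifs with h1 h2 h3
      · exact hx.2 j (by omega)
      · exact hx.lt (by omega) (by omega)
      · omega
      · exact hx.2 (j + 1) (by omega)
  obtain ⟨S, hS, hSc, b, hb⟩ := hA V (fun x => φ (del x)) hV (by
    intro x y hxy
    refine hφ _ _ (fun j hj => ?_)
    simp only [del]
    split_ifs
    · exact hxy j (by omega)
    · exact hxy (j + 1) (by omega)) (by
    intro j hj x y hx hy hxy hle hcx
    simp only at hcx ⊢
    rcases Nat.lt_trichotomy j (i + 1) with h1 | h1 | h1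
    · have h2 := hm j (by omega) (del x) (del y) (hdel x hx) (hdel y hy) (fun k hk hkj => by
        simp only [del]
        split_ifs
        · exact hxy k (by omega) hkj
        · exact hxy (k + 1) (by omega) (by omega)) (by
        simp only [del]
        rw [if_pos (by omega : j ≤ i), if_pos (by omega : j ≤ i)]
        exact hle)
      simp only [show j ≤ i by omega, if_true] at h2
      exact h2 hcx
    · have h2 : φ (del x) = φ (del y) := by
        refine hφ _ _ (fun k hk => ?_)
        simp only [del]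
        split_ifs with h3
        · exact hxy k (by omega) (by omega)
        · exact hxy (k + 1) (by omega) (by omega)
      rw [← h2]
      exact hcx
    · obtain ⟨k, rfl⟩ : ∃ k, j = k + 1 := ⟨j - 1, by omega⟩
      have h2 := hm k (by omega) (del x) (del y) (hdel x hx) (hdel y hy) (fun l hl hlk => by
        simp only [del]
        split_ifs with h3
        · exact hxy l (by omega) (by omega)
        · exact hxy (l + 1) (by omega) (by omega)) (by
        simp only [del]
        rw [if_neg (by omega : ¬ k ≤ i), if_neg (by omega : ¬ k ≤ i)]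
        exact hle)
      simp only [show ¬ k ≤ i by omega, if_false] at h2
      exact h2 hcx)
  obtain ⟨W, hWS, hWc, σ, hσ⟩ := exists_spread n S hSc.ge
  refine ⟨W, hWS.trans hS, hWc, b, fun x hx => ?_⟩
  let ins : (ℕ → ℕ) := fun j => if j ≤ i then x j else if j = i + 1 then σ (x i) else x (j - 1)
  have ins_le : ∀ j, j ≤ i → ins j = x j := fun j hj => by simp [ins, hj]
  have ins_eq : ins (i + 1) = σ (x i) := by simp [ins]
  have ins_gt : ∀ j, i < j → ins (j + 1) = x j := fun j hj => by
    simp only [ins]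
    rw [if_neg (by omega), if_neg (by omega)]
    rfl
  have hins : Inc (r + 1) S ins := by
    refine ⟨fun j hj => ?_, fun j hj => ?_⟩
    · rcases Nat.lt_or_ge i j with h1 | h1
      · obtain ⟨k, rfl⟩ : ∃ k, j = k + 1 := ⟨j - 1, by omega⟩
        rcases Nat.lt_or_ge i k with h2 | h2
        · rw [ins_gt k h2]
          exact hWS (hx.1 k (by omega))
        · have : k = i := by omega
          rw [this, ins_eq]
          exact (hσ _ (hx.1 i hi)).1
      · rw [ins_le j h1]
        exact hWS (hx.1 j (by omega))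
    · rcases Nat.lt_trichotomy j i with h1 | h1 | h1
      · rw [ins_le j h1.le, ins_le (j + 1) h1]
        exact hx.2 j (by omega)
      · rw [h1, ins_le i le_rfl, ins_eq]
        exact (hσ _ (hx.1 i hi)).2.1
      · obtain ⟨k, rfl⟩ : ∃ k, j = k + 1 := ⟨j - 1, by omega⟩
        rw [ins_gt (k + 1) (by omega)]
        rcases Nat.lt_or_ge i k with h2 | h2
        · rw [ins_gt k h2]
          exact hx.2 k (by omega)
        · have hk : k = i := by omega
          rw [hk, ins_eq]
          exact (hσ _ (hx.1 i hi)).2.2 _ (hx.1 (i + 1) (by omega)) (hx.2 i (by omega))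
  have h1 := hb ins hins
  rw [← h1]
  refine hφ _ _ (fun j hj => ?_)
  simp only [del]
  split_ifs with h2
  · exact (ins_le j h2).symm
  · exact (ins_gt j (by omega)).symm

/-- two coordinates with different signs -/
theorem not_arr_two {ε : ℕ → Bool} (h : ε 0 ≠ ε 1) {n : ℕ} (hn : 1 ≤ n) :
    ¬ Arr 2 ε (n ^ 2) (2 * n) := by
  classical
  let φ : (ℕ → ℕ) → Bool := fun x => decide (x 0 / n = x 1 / n)
  have hφ : Dep 2 φ := by
    intro x y hxy
    simp only [φ, hxy 0 (by norm_num), hxy 1 (by norm_num)]
  have hm0 : MonoAt 2 (range (n ^ 2)) φ 0 true := by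
    intro x y hx hy hxy hle hcx
    have h1 : x 1 = y 1 := hxy 1 (by norm_num) (by norm_num)
    have h2 : x 0 < x 1 := hx.2 0 (by norm_num)
    have h3 : y 0 < y 1 := hy.2 0 (by norm_num)
    simp only [φ, decide_eq_true_eq] at hcx ⊢
    have h4 : x 0 / n ≤ y 0 / n := Nat.div_le_div_right hle
    have h5 : y 0 / n ≤ y 1 / n := Nat.div_le_div_right h3.le
    rw [h1] at hcx
    omega
  have hm1 : MonoAt 2 (range (n ^ 2)) φ 1 false := by
    intro x y hx hy hxy hle hcx
    have h1 : x 0 = y 0 := hxy 0 (by norm_num) (by norm_num)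
    have h2 : x 0 < x 1 := hx.2 0 (by norm_num)
    simp only [φ, decide_eq_false_iff_not] at hcx ⊢
    have h4 : x 1 / n ≤ y 1 / n := Nat.div_le_div_right hle
    have h5 : x 0 / n ≤ x 1 / n := Nat.div_le_div_right h2.le
    rw [← h1]
    omega
  have hhom : ∀ S ⊆ range (n ^ 2), S.card = 2 * n → ¬ Hom 2 φ S := by
    intro S hS hc ⟨b, hb⟩
    have hval : ∀ u ∈ S, ∀ v ∈ S, u < v → decide (u / n = v / n) = b := by
      intro u hu v hv huv
      have := hb _ (inc_pr hu hv huv)
      simpa [φ, pr] using this
    cases b with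
    | true =>
      have hne : S.Nonempty := card_pos.1 (by omega)
      set a := S.min' hne with ha
      have haS : a ∈ S := S.min'_mem hne
      have h1 : S ⊆ Ico (n * (a / n)) (n * (a / n) + n) := by
        intro v hv
        have h2 : v / n = a / n := by
          rcases Nat.eq_or_lt_of_le (S.min'_le v hv) with h3 | h3
          · rw [ha, h3]
          · exact (of_decide_eq_true (hval a haS v hv h3)).symm
        have h3 := Nat.div_add_mod v n
        have h4 := Nat.mod_lt v hn
        rw [h2] at h3
        rw [mem_Ico]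
        omega
      have h5 := card_le_card h1
      rw [Nat.card_Ico] at h5
      omega
    | false =>
      have h1 : S.card ≤ (range n).card := by
        refine card_le_card_of_injOn (fun v => v / n) (fun v hv => ?_) (fun u hu v hv huv => ?_)
        · rw [coe_range, Set.mem_Iio]
          have h2 := mem_range.1 (hS hv)
          rw [pow_two] at h2
          exact Nat.div_lt_of_lt_mul h2
        · simp only at huv
          rcases Nat.lt_trichotomy u v with h3 | h3 | h3
          · exact absurd huv (of_decide_eq_false (hval u hu v hv h3))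
          · exact h3
          · exact absurd huv.symm (of_decide_eq_false (hval v hv u hu h3))
      rw [card_range] at h1
      omega
  cases h0 : ε 0 with
  | true =>
    have h1 : ε 1 = false := by
      have := bnot (Ne.symm h)
      rw [this, h0]
      rfl
    refine not_arr (by rw [card_range]) hφ (fun i hi => ?_) hhom
    have : i = 0 ∨ i = 1 := by omega
    rcases this with rfl | rfl
    · rw [h0]
      exact hm0
    · rw [h1]
      exact hm1
  | false =>
    have h1 : ε 1 = true := by
      have := bnot (Ne.symm h)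
      rw [this, h0]
      rfl
    refine not_arr (c := fun x => !(φ x)) (by rw [card_range]) ?_ (fun i hi => ?_)
      (fun S hS hSc hh => hhom S hS hSc (hom_not hh))
    · intro x y hxy
      simp only [hφ x y hxy]
    · have : i = 0 ∨ i = 1 := by omega
      rcases this with rfl | rfl
      · rw [h0]
        exact monoAt_not hm0
      · rw [h1]
        exact monoAt_not hm1

theorem lower (r : ℕ) : ∀ ε : ℕ → Bool, ∃ C, 1 ≤ C ∧ ∀ n, 1 ≤ n →
    ¬ Arr (r + 1) ε (B (chg r ε) n) (C * n) := by
  induction r with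
  | zero =>
    intro ε
    refine ⟨2, by norm_num, fun n hn => ?_⟩
    refine not_arr (V := range n) (c := fun _ => true) (by simp [chg, B]) (fun _ _ _ => rfl)
      (fun i hi x y _ _ _ _ h => h) (fun S hS hc => ?_)
    have := card_le_card hS
    rw [card_range] at this
    omega
  | succ r ih =>
    intro ε
    by_cases h : ∃ i, i < r + 1 ∧ ε i = ε (i + 1)
    · obtain ⟨i, hi, hε⟩ := h
      obtain ⟨C, hC, h⟩ := ih (fun j => if j ≤ i then ε j else ε (j + 1))
      refine ⟨2 * C, by omega, fun n hn => ?_⟩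
      have h1 := not_arr_merge hi (h n hn)
      rwa [chg_merge hε (by omega : i ≤ r), ← mul_assoc] at h1
    · have h' : ∀ i, i < r + 1 → ε i ≠ ε (i + 1) := fun i hi he => h ⟨i, hi, he⟩
      rw [chg_alt h']
      match r with
      | 0 => exact ⟨2, by norm_num, fun n hn => not_arr_two (h' 0 (by norm_num)) hn⟩
      | q + 1 => exact alt_not_arr q h'

end Pool.Agent.H86.Mono
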