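import Pool.Agent.H86.Mono.Exact

/-!
# Colourings which are monotone in every coordinate: the statements

The colourings are given on increasing tuples `x : Fin r → ℕ` of numbers less than `N`.
-/

set_option autoImplicit false

namespace Pool.Agent.H86.Mono

open Finset

/-- `c` is a two-colouring of the increasing `r`-tuples of numbers `< N` which is monotone in each
coordinate: if the coordinate `i` is moved upwards and the other ones are fixed, then the colour
`ε i` is preserved (so the colour changes at most once along such a line, from `¬ ε i` to `ε i`). -/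
def IsMono {r : ℕ} (ε : Fin r → Bool) (N : ℕ) (c : (Fin r → ℕ) → Bool) : Prop :=
  ∀ (i : Fin r) (x y : Fin r → ℕ), StrictMono x → StrictMono y → (∀ j, x j < N) →
    (∀ j, y j < N) → (∀ j, j ≠ i → x j = y j) → x i ≤ y i → c x = ε i → c y = ε i

/-- All increasing `r`-tuples of elements of `S` have the same colour. -/
def IsHom {r : ℕ} (c : (Fin r → ℕ) → Bool) (S : Finset ℕ) : Prop :=
  ∃ b, ∀ x : Fin r → ℕ, StrictMono x → (∀ j, x j ∈ S) → c x = b

/-- Every two-colouring of the increasing `r`-tuples of `{0, …, N - 1}` which is monotone with the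
signs `ε` has a homogeneous set of size `n`. -/
def Forces {r : ℕ} (ε : Fin r → Bool) (N n : ℕ) : Prop :=
  ∀ c : (Fin r → ℕ) → Bool, IsMono ε N c → ∃ S ⊆ range N, S.card = n ∧ IsHom c S

/-- The number of sign changes. -/
def changes {r : ℕ} (ε : Fin (r + 1) → Bool) : ℕ :=
  (univ.filter fun i : Fin r => ε i.castSucc ≠ ε i.succ).card

/-- extension of a tuple -/
def ext {α : Type} [Inhabited α] {r : ℕ} (x : Fin r → α) : ℕ → α :=
  fun i => if h : i < r then x ⟨i, h⟩ else default

theorem ext_val {α : Type} [Inhabited α] {r : ℕ} (x : Fin r → α) (i : Fin r) :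
    ext x i = x i := by
  simp [ext]

theorem ext_lt {α : Type} [Inhabited α] {r : ℕ} (x : Fin r → α) {i : ℕ} (h : i < r) :
    ext x i = x ⟨i, h⟩ := by
  simp [ext, h]

theorem inc_ext {r : ℕ} {V : Finset ℕ} {x : Fin r → ℕ} (hx : StrictMono x) (hV : ∀ j, x j ∈ V) :
    Inc r V (ext x) := by
  refine ⟨fun i hi => ?_, fun i hi => ?_⟩
  · rw [ext_lt x hi]
    exact hV _
  · rw [ext_lt x hi, ext_lt x (by omega : i < r)]
    exact hx (by rw [Fin.lt_def]; simp)

theorem strictMono_of_inc {r : ℕ} {V : Finset ℕ} {x : ℕ → ℕ} (hx : Inc r V x) :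
    StrictMono (fun i : Fin r => x i) := by
  intro a b hab
  exact hx.lt (Fin.lt_def.1 hab) b.isLt

theorem chg_ext {r : ℕ} (ε : Fin (r + 1) → Bool) : chg r (ext ε) = changes ε := by
  unfold chg changes
  rw [card_filter, ← Fin.sum_univ_eq_sum_range (fun i => if ext ε i = ext ε (i + 1) then 0 else 1) r]
  refine sum_congr rfl (fun i _ => ?_)
  have h1 : ext ε (i : ℕ) = ε i.castSucc := by
    have := ext_val ε i.castSucc
    simpa using this
  have h2 : ext ε ((i : ℕ) + 1) = ε i.succ := by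
    have := ext_val ε i.succ
    simpa using this
  rw [h1, h2]
  by_cases h : ε i.castSucc = ε i.succ <;> simp [h]

theorem forces_of_arr {r : ℕ} {ε : Fin r → Bool} {N n : ℕ} (h : Arr r (ext ε) N n) {N' : ℕ}
    (hN : N ≤ N') : Forces ε N' n := by
  intro c hc
  obtain ⟨S, hS, hSc, b, hb⟩ := h (range N') (fun x => c (fun i : Fin r => x i))
    (by rwa [card_range]) (by
    intro x y hxy
    have : (fun i : Fin r => x i) = fun i : Fin r => y i := funext fun i => hxy i i.isLt
    simp only [this]) (by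
    intro i hi x y hx hy hxy hle hcx
    rw [ext_lt ε hi] at hcx ⊢
    exact hc ⟨i, hi⟩ _ _ (strictMono_of_inc hx) (strictMono_of_inc hy)
      (fun j => mem_range.1 (hx.1 j j.isLt)) (fun j => mem_range.1 (hy.1 j j.isLt))
      (fun j hj => hxy j j.isLt (fun h => hj (Fin.ext h))) hle hcx)
  refine ⟨S, hS, hSc, b, fun x hx hxS => ?_⟩
  have h1 := hb (ext x) (inc_ext hx hxS)
  have h2 : (fun i : Fin r => ext x i) = x := funext fun i => ext_val x i
  simp only [h2] at h1
  exact h1

theorem arr_of_forces {r : ℕ} {ε : Fin r → Bool} {N n : ℕ} (h : Forces ε N n) :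
    ∀ c : (ℕ → ℕ) → Bool, Dep r c → (∀ i, i < r → MonoAt r (range N) c i (ext ε i)) →
      ∃ S ⊆ range N, S.card = n ∧ Hom r c S := by
  intro c hdep hm
  obtain ⟨S, hS, hSc, b, hb⟩ := h (fun x => c (ext x)) (by
    intro i x y hx hy hxN hyN hxy hle hcx
    have h1 := hm i i.isLt (ext x) (ext y) (inc_ext hx fun j => mem_range.2 (hxN j))
      (inc_ext hy fun j => mem_range.2 (hyN j)) (fun j hj hji => by
        rw [ext_lt x hj, ext_lt y hj]
        exact hxy _ (fun h => hji (by rw [← h]))) (by rw [ext_val, ext_val]; exact hle)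
    rw [ext_val ε i] at h1
    exact h1 hcx)
  refine ⟨S, hS, hSc, b, fun x hx => ?_⟩
  have h1 := hb (fun i : Fin r => x i) (strictMono_of_inc hx) (fun j => hx.1 j j.isLt)
  rw [← h1]
  refine hdep _ _ (fun i hi => ?_)
  rw [ext_lt (fun i : Fin r => x i) hi]

/-- the negative arrow, with the ground set `{0, …, N - 1}` -/
def NArr (r : ℕ) (ε : ℕ → Bool) (N n : ℕ) : Prop :=
  ∃ c : (ℕ → ℕ) → Bool, Dep r c ∧ (∀ i, i < r → MonoAt r (range N) c i (ε i)) ∧
    ∀ S ⊆ range N, S.card = n → ¬ Hom r c S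

theorem monoAt_sub {r : ℕ} {V W : Finset ℕ} {c : (ℕ → ℕ) → Bool} {i : ℕ} {b : Bool}
    (h : MonoAt r V c i b) (hW : W ⊆ V) : MonoAt r W c i b :=
  fun x y hx hy => h x y (hx.mono hW) (hy.mono hW)

/-- transfer to an initial segment -/
theorem narr_of_not_arr {r : ℕ} {ε : ℕ → Bool} {N n : ℕ} (h : ¬ Arr r ε N n) {N' : ℕ}
    (hN : N' ≤ N) : NArr r ε N' n := by
  classical
  unfold Arr at h
  push Not at h
  obtain ⟨V, c, hV, hdep, hm, hno⟩ := h
  obtain ⟨V', hV', hVc⟩ := exists_subset_card_eq (hN.trans hV)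
  obtain ⟨e, heV, hem⟩ := enum V'
  rw [hVc] at heV hem
  have hinc : ∀ x, Inc r (range N') x → Inc r V (fun i => e (x i)) := by
    intro x hx
    refine ⟨fun i hi => hV' (heV _ (mem_range.1 (hx.1 i hi))), fun i hi => ?_⟩
    exact hem _ _ (hx.2 i hi) (mem_range.1 (hx.1 (i + 1) hi))
  have hle' : ∀ a b, a ≤ b → b < N' → e a ≤ e b := by
    intro a b hab hb
    rcases Nat.eq_or_lt_of_le hab with h | h
    · rw [h]
    · exact (hem a b h hb).le
  refine ⟨fun x => c (fun i => e (x i)), ?_, ?_, ?_⟩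
  · intro x y hxy
    exact hdep _ _ (fun i hi => by rw [hxy i hi])
  · intro i hi x y hx hy hxy hle
    exact hm i hi _ _ (hinc x hx) (hinc y hy) (fun j hj hji => by rw [hxy j hj hji])
      (hle' _ _ hle (mem_range.1 (hy.1 i hi)))
  · intro S hS hSc ⟨b, hb⟩
    have hinj : Set.InjOn e S := by
      intro u hu v hv huv
      have hu' := mem_range.1 (hS hu)
      have hv' := mem_range.1 (hS hv)
      rcases Nat.lt_trichotomy u v with h | h | h
      · exact absurd huv (hem u v h hv').ne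
      · exact h
      · exact absurd huv (hem v u h hu').ne'
    refine hno (S.image e) ?_ (by rw [card_image_of_injOn hinj, hSc]) ⟨b, fun z hz => ?_⟩
    · intro w hw
      obtain ⟨u, hu, rfl⟩ := mem_image.1 hw
      exact hV' (heV u (mem_range.1 (hS hu)))
    · have hch : ∀ i, ∃ u, i < r → u ∈ S ∧ e u = z i := by
        intro i
        by_cases hi : i < r
        · obtain ⟨u, hu, hu'⟩ := mem_image.1 (hz.1 i hi)
          exact ⟨u, fun _ => ⟨hu, hu'⟩⟩
        · exact ⟨0, fun h => absurd h hi⟩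
      choose x hx using hch
      have hxi : Inc r S x := by
        refine ⟨fun i hi => (hx i hi).1, fun i hi => ?_⟩
        by_contra hle
        push Not at hle
        have h1 := hle' _ _ hle (mem_range.1 (hS (hx i (by omega)).1))
        rw [(hx i (by omega)).2, (hx (i + 1) hi).2] at h1
        have := hz.2 i hi
        omega
      have h1 := hb x hxi
      rw [← h1]
      exact hdep _ _ (fun i hi => (hx i hi).2.symm)

theorem not_forces {r : ℕ} {ε : Fin r → Bool} {N n : ℕ} (h : ¬ Arr r (ext ε) N n) {N' : ℕ}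
    (hN : N' ≤ N) : ¬ Forces ε N' n := by
  intro hF
  obtain ⟨c, h1, h2, h3⟩ := narr_of_not_arr h hN
  obtain ⟨S, hS, hSc, hh⟩ := arr_of_forces hF c h1 h2
  exact h3 S hS hSc hh

/-- **Theorem 1.** -/
theorem main (r : ℕ) (ε : Fin (r + 1) → Bool) : ∃ C, 1 ≤ C ∧ ∀ n, 1 ≤ n →
    (∀ N, B (changes ε) (C * n) ≤ N → Forces ε N n) ∧
    ∀ N, N ≤ B (changes ε) n → ¬ Forces ε N (C * n) := by
  obtain ⟨C₁, hC₁, h1⟩ := upper r (ext ε)
  obtain ⟨C₂, hC₂, h2⟩ := lower r (ext ε)
  rw [chg_ext] at h1 h2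
  refine ⟨C₁ * C₂, Nat.mul_pos hC₁ hC₂, fun n hn => ⟨fun N hN => ?_, fun N hN => ?_⟩⟩
  · refine forces_of_arr (h1 n hn) (le_trans ?_ hN)
    have h3 : C₁ * n ≤ C₁ * C₂ * n := by
      have : C₁ * n * 1 ≤ C₁ * n * C₂ := Nat.mul_le_mul_left _ hC₂
      nlinarith
    have hmono : ∀ s x y, x ≤ y → B s x ≤ B s y := by
      intro s x y hxy
      match s with
      | 0 => exact hxy
      | 1 => exact Nat.pow_le_pow_left hxy 2
      | k + 2 => exact tow_mono (k + 1) hxy
    exact hmono _ _ _ h3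
  · refine not_forces (fun hA => h2 n hn ?_) hN
    intro V c hV hdep hm
    obtain ⟨S, hS, hSc, hh⟩ := hA V c hV hdep hm
    have h3 : C₂ * n ≤ S.card := by
      rw [hSc]
      have : 1 * (C₂ * n) ≤ C₁ * (C₂ * n) := Nat.mul_le_mul_right _ hC₁
      nlinarith
    obtain ⟨T, hT, hTc⟩ := exists_subset_card_eq h3
    exact ⟨T, hT.trans hS, hTc, hom_sub hh hT⟩

/-- **Theorem 2.** -/
theorem main3 (ε : Fin 3 → Bool) (h0 : ε 0 ≠ ε 1) (h1 : ε 1 ≠ ε 2) (n : ℕ) (hn : 2 ≤ n) (N : ℕ) :
    Forces ε N n ↔ (2 * n - 4).choose (n - 2) < N := by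
  have e0 : ext ε 0 = ε 0 := ext_val ε 0
  have e1 : ext ε 1 = ε 1 := ext_val ε 1
  have e2 : ext ε 2 = ε 2 := ext_val ε 2
  constructor
  · intro hF
    by_contra hN
    push Not at hN
    exact not_forces (not_arr_three (by rw [e0, e1]; exact h0) (by rw [e1, e2]; exact h1) hn) hN hF
  · intro hN
    have h02 : ε 0 = ε 2 := by
      revert h0 h1
      generalize ε 0 = a
      generalize ε 1 = b
      generalize ε 2 = d
      revert a b d
      decide
    exact forces_of_arr (arr_three (ext ε) (by rw [e0, e2]; exact h02) n hn) hN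

end Pool.Agent.H86.Mono
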