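import Pool.Agent.H86.Mono.Defs
import Pool.Agent.TH138.NF.HD

/-!
# The first repeated sign, and stepping up of monotone colourings with alternating signs
-/

set_option autoImplicit false

namespace Pool.Agent.H86.Mono

open Finset
open Pool.Agent.TH138.NF (hd)

/-- the first repeated value of `t 0, …, t K` -/
def rep : ℕ → (ℕ → Bool) → Option Bool
  | 0, _ => none
  | k + 1, t =>
    match rep k t with
    | some b => some b
    | none => if t (k + 1) = t k then some (t k) else none

theorem rep_succ_some {k : ℕ} {t : ℕ → Bool} {b : Bool} (h : rep k t = some b) :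
    rep (k + 1) t = some b := by
  simp only [rep, h]

theorem rep_succ_none {k : ℕ} {t : ℕ → Bool} (h : rep k t = none) :
    rep (k + 1) t = if t (k + 1) = t k then some (t k) else none := by
  simp only [rep, h]

theorem rep_none {K : ℕ} {t : ℕ → Bool} : rep K t = none ↔ ∀ k, k < K → t (k + 1) ≠ t k := by
  induction K with
  | zero => simp [rep]
  | succ K ih =>
    cases h : rep K t with
    | some b =>
      rw [rep_succ_some h]
      simp only [reduceCtorEq, false_iff]
      intro h2
      have := ih.2 (fun k hk => h2 k (by omega))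
      rw [h] at this
      exact absurd this (by simp)
    | none =>
      rw [rep_succ_none h]
      have h1 := ih.1 h
      constructor
      · intro h2 k hk
        rcases Nat.lt_or_ge k K with h3 | h3
        · exact h1 k h3
        · have : k = K := by omega
          subst this
          intro h4
          rw [if_pos h4] at h2
          exact absurd h2 (by simp)
      · intro h2
        rw [if_neg (h2 K (by omega))]

theorem rep_congr {K : ℕ} {t t' : ℕ → Bool} (h : ∀ k, k ≤ K → t k = t' k) : rep K t = rep K t' := by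
  induction K with
  | zero => rfl
  | succ K ih =>
    have h1 := ih (fun k hk => h k (by omega))
    simp only [rep, h1, h (K + 1) le_rfl, h K (by omega)]

theorem rep_first {K : ℕ} {t : ℕ → Bool} (h : t 1 = t 0) : rep (K + 1) t = some (t 0) := by
  induction K with
  | zero => simp [rep, h]
  | succ K ih => exact rep_succ_some ih

theorem bool_key1 {a b a' b' : Bool} (h1 : a = true → a' = true) (h2 : b = true → b' = true)
    (h3 : ¬ (b = a ∧ a = false)) (h4 : ¬ (b' = a' ∧ a' = true)) :
    b ≠ a ∧ b' ≠ a' ∧ a = a' ∧ b = b' := by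
  revert a b a' b'
  decide

/-- comparison of the first repeated values of two comparable sequences -/
theorem rep_compare {K : ℕ} {t t' : ℕ → Bool} (h : ∀ k, k ≤ K → t k = true → t' k = true) :
    rep K t = some false ∨ rep K t' = some true ∨
      (rep K t = none ∧ rep K t' = none ∧ (1 ≤ K → ∀ k, k ≤ K → t k = t' k)) := by
  induction K with
  | zero =>
    right
    right
    refine ⟨rfl, rfl, fun h => by omega⟩
  | succ K ih =>
    rcases ih (fun k hk => h k (by omega)) with h1 | h1 | ⟨h1, h2, h3⟩
    · exact Or.inl (rep_succ_some h1)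
    · exact Or.inr (Or.inl (rep_succ_some h1))
    · rw [rep_succ_none h1, rep_succ_none h2]
      by_cases c1 : t (K + 1) = t K ∧ t K = false
      · left
        rw [if_pos c1.1, c1.2]
      · by_cases c2 : t' (K + 1) = t' K ∧ t' K = true
        · right
          left
          rw [if_pos c2.1, c2.2]
        · right
          right
          obtain ⟨d1, d2, d3, d4⟩ := bool_key1 (h K (by omega)) (h (K + 1) le_rfl) c1 c2
          refine ⟨if_neg d1, if_neg d2, fun _ k hk => ?_⟩
          rcases Nat.lt_trichotomy k K with h5 | h5 | h5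
          · exact h3 (by omega) k h5.le
          · rw [h5]
            exact d3
          · have : k = K + 1 := by omega
            rw [this]
            exact d4

/-- the signs of a sequence of differing digits -/
def tt (d : ℕ → ℕ) (k : ℕ) : Bool :=
  if k % 2 = 0 then decide (d (k + 1) < d k) else decide (d k < d (k + 1))

theorem tt_congr {K : ℕ} {d d' : ℕ → ℕ} (h : ∀ k, k ≤ K + 1 → d k = d' k) :
    ∀ k, k ≤ K → tt d k = tt d' k := by
  intro k hk
  simp only [tt, h k (by omega), h (k + 1) (by omega)]

/-- alternating signs: increasing or decreasing sequences -/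
theorem inc_of_alt {K : ℕ} {d : ℕ → ℕ} (h : ∀ k, k < K → tt d (k + 1) ≠ tt d k)
    (hne : ∀ k, k ≤ K → d k ≠ d (k + 1)) (h0 : d 0 < d 1) : ∀ k, k ≤ K → d k < d (k + 1) := by
  intro k
  induction k with
  | zero => intro _; exact h0
  | succ k ih =>
    intro hk
    have h1 := ih (by omega)
    have h2 := h k (by omega)
    have h3 := hne (k + 1) hk
    unfold tt at h2
    rcases Nat.mod_two_eq_zero_or_one k with h4 | h4
    · rw [if_neg (by omega : ¬ (k + 1) % 2 = 0), if_pos h4] at h2
      by_contra h9
      exact h2 (by rw [decide_eq_false h9, decide_eq_false (by omega)])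
    · rw [if_pos (by omega : (k + 1) % 2 = 0), if_neg (by omega : ¬ k % 2 = 0)] at h2
      by_contra h9
      exact h2 (by rw [decide_eq_true (by omega), decide_eq_true h1])

theorem dec_of_alt {K : ℕ} {d : ℕ → ℕ} (h : ∀ k, k < K → tt d (k + 1) ≠ tt d k)
    (hne : ∀ k, k ≤ K → d k ≠ d (k + 1)) (h0 : d 1 < d 0) : ∀ k, k ≤ K → d (k + 1) < d k := by
  intro k
  induction k with
  | zero => intro _; exact h0
  | succ k ih =>
    intro hk
    have h1 := ih (by omega)
    have h2 := h k (by omega)
    have h3 := hne (k + 1) hk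
    unfold tt at h2
    rcases Nat.mod_two_eq_zero_or_one k with h4 | h4
    · rw [if_neg (by omega : ¬ (k + 1) % 2 = 0), if_pos h4] at h2
      by_contra h9
      exact h2 (by rw [decide_eq_true (by omega), decide_eq_true h1])
    · rw [if_pos (by omega : (k + 1) % 2 = 0), if_neg (by omega : ¬ k % 2 = 0)] at h2
      by_contra h9
      exact h2 (by rw [decide_eq_false h9, decide_eq_false (by omega)])

theorem rep_inc {K : ℕ} {d : ℕ → ℕ} (h : ∀ k, k ≤ K → d k < d (k + 1)) : rep K (tt d) = none := by
  rw [rep_none]
  intro k hk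
  have h1 := h k (by omega)
  have h2 := h (k + 1) (by omega)
  unfold tt
  rcases Nat.mod_two_eq_zero_or_one k with h4 | h4
  · rw [if_neg (by omega), if_pos h4]
    have : ¬ d (k + 1) < d k := by omega
    simp [this, h2]
  · rw [if_pos (by omega), if_neg (by omega)]
    have : ¬ d (k + 1 + 1) < d (k + 1) := by omega
    simp [this, h1]

theorem rep_dec {K : ℕ} {d : ℕ → ℕ} (h : ∀ k, k ≤ K → d (k + 1) < d k) : rep K (tt d) = none := by
  rw [rep_none]
  intro k hk
  have h1 := h k (by omega)
  have h2 := h (k + 1) (by omega)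
  unfold tt
  rcases Nat.mod_two_eq_zero_or_one k with h4 | h4
  · rw [if_neg (by omega), if_pos h4]
    have : ¬ d (k + 1) < d (k + 1 + 1) := by omega
    simp [this, h1]
  · rw [if_pos (by omega), if_neg (by omega)]
    have : ¬ d k < d (k + 1) := by omega
    simp [this, h2]

/-- the alternating order on the first `r` coordinates -/
def Le (r : ℕ) (d d' : ℕ → ℕ) : Prop :=
  ∀ j, j < r → (j % 2 = 0 → d j ≤ d' j) ∧ (j % 2 = 1 → d' j ≤ d j)

theorem tt_le {K : ℕ} {d d' : ℕ → ℕ} (h : Le (K + 2) d d') :
    ∀ k, k ≤ K → tt d k = true → tt d' k = true := by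
  intro k hk h1
  have h2 := h k (by omega)
  have h3 := h (k + 1) (by omega)
  unfold tt at h1 ⊢
  rcases Nat.mod_two_eq_zero_or_one k with h4 | h4
  · rw [if_pos h4, decide_eq_true_eq] at h1 ⊢
    have h5 := h2.1 h4
    have h6 := h3.2 (by omega)
    omega
  · rw [if_neg (by omega), decide_eq_true_eq] at h1 ⊢
    have h5 := h2.2 h4
    have h6 := h3.1 (by omega)
    omega

/-- a monotone colouring with alternating signs preserves the alternating order -/
theorem alt_mono {r : ℕ} {V : Finset ℕ} {φ : (ℕ → ℕ) → Bool} (hφ : Dep r φ)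
    (hm : ∀ i, i < r → MonoAt r V φ i (decide (i % 2 = 0))) {u v : ℕ → ℕ} (hu : Inc r V u)
    (hv : Inc r V v) (h : Le r u v) (hφu : φ u = true) : φ v = true := by
  have hw : ∀ k, Inc r V (fun j => if j < k then v j else u j) := by
    intro k
    refine ⟨fun i hi => ?_, fun i hi => ?_⟩
    · simp only
      split_ifs
      · exact hv.1 i hi
      · exact hu.1 i hi
    · have h1 := hu.2 i hi
      have h2 := hv.2 i hi
      have h3 := h i (by omega)
      have h4 := h (i + 1) (by omega)
      simp only
      rcases Nat.mod_two_eq_zero_or_one i with h5 | h5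
      · have h6 := h3.1 h5
        have h7 := h4.2 (by omega)
        split_ifs <;> omega
      · have h6 := h3.2 h5
        have h7 := h4.1 (by omega)
        split_ifs <;> omega
  have key : ∀ k, k ≤ r → φ (fun j => if j < k then v j else u j) = true := by
    intro k
    induction k with
    | zero =>
      intro _
      rw [← hφu]
      exact hφ _ _ (fun i hi => by simp)
    | succ k ih =>
      intro hk
      have h1 := ih (by omega)
      rcases Nat.mod_two_eq_zero_or_one k with h2 | h2
      · have h3 := hm k (by omega) _ _ (hw k) (hw (k + 1)) (fun j hj hjk => by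
          by_cases h4 : j < k
          · rw [if_pos h4, if_pos (by omega)]
          · rw [if_neg h4, if_neg (by omega)]) (by
          simp only [lt_irrefl, if_false, Nat.lt_succ_self, if_true]
          exact (h k (by omega)).1 h2)
        rw [decide_eq_true h2] at h3
        exact h3 h1
      · have h3 := hm k (by omega) _ _ (hw (k + 1)) (hw k) (fun j hj hjk => by
          by_cases h4 : j < k
          · rw [if_pos h4, if_pos (by omega)]
          · rw [if_neg h4, if_neg (by omega)]) (by
          simp only [lt_irrefl, if_false, Nat.lt_succ_self, if_true]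
          exact (h k (by omega)).2 h2)
        rw [decide_eq_false (by omega)] at h3
        by_contra h4
        have h5 := h3 (by simpa using h4)
        rw [h1] at h5
        exact absurd h5 (by simp)
  have h1 := key r le_rfl
  rw [← h1]
  exact hφ _ _ (fun i hi => by simp [hi])

/-- the colouring of the sequence of differing digits (`q + 3` of them) -/
def G (q : ℕ) (φ : (ℕ → ℕ) → Bool) (d : ℕ → ℕ) : Bool :=
  match rep (q + 1) (tt d) with
  | some b => b
  | none => if d 0 < d 1 then φ d else (φ (fun j => d (q + 2 - j)) ^^ decide (q % 2 = 1))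

theorem G_some {q : ℕ} {φ : (ℕ → ℕ) → Bool} {d : ℕ → ℕ} {b : Bool}
    (h : rep (q + 1) (tt d) = some b) : G q φ d = b := by
  simp only [G, h]

theorem G_inc {q : ℕ} {φ : (ℕ → ℕ) → Bool} {d : ℕ → ℕ} (h : rep (q + 1) (tt d) = none)
    (h0 : d 0 < d 1) : G q φ d = φ d := by
  simp only [G, h, if_pos h0]

theorem G_dec {q : ℕ} {φ : (ℕ → ℕ) → Bool} {d : ℕ → ℕ} (h : rep (q + 1) (tt d) = none)
    (h0 : d 1 < d 0) : G q φ d = (φ (fun j => d (q + 2 - j)) ^^ decide (q % 2 = 1)) := by
  simp only [G, h, if_neg (by omega : ¬ d 0 < d 1)]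

theorem G_congr {q : ℕ} {φ : (ℕ → ℕ) → Bool} (hφ : Dep (q + 3) φ) {d d' : ℕ → ℕ}
    (h : ∀ j, j < q + 3 → d j = d' j) : G q φ d = G q φ d' := by
  unfold G
  rw [rep_congr (tt_congr (K := q + 1) (fun k hk => h k (by omega))), h 0 (by omega),
    h 1 (by omega), hφ d d' h,
    hφ (fun j => d (q + 2 - j)) (fun j => d' (q + 2 - j)) (fun i hi => h _ (by omega))]

theorem inc_seq {q M : ℕ} {d : ℕ → ℕ} (hM : ∀ j, j < q + 3 → d j < M)
    (h : ∀ k, k ≤ q + 1 → d k < d (k + 1)) : Inc (q + 3) (range M) d :=
  ⟨fun i hi => mem_range.2 (hM i hi), fun i hi => h i (by omega)⟩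

theorem dec_seq {q M : ℕ} {d : ℕ → ℕ} (hM : ∀ j, j < q + 3 → d j < M)
    (h : ∀ k, k ≤ q + 1 → d (k + 1) < d k) : Inc (q + 3) (range M) (fun j => d (q + 2 - j)) :=
  ⟨fun i hi => mem_range.2 (hM _ (by omega)), fun i hi => by
    have := h (q + 2 - (i + 1)) (by omega)
    rw [show q + 2 - (i + 1) + 1 = q + 2 - i by omega] at this
    exact this⟩

/-- `G` preserves the alternating order -/
theorem G_mono {q M : ℕ} {φ : (ℕ → ℕ) → Bool} (hφ : Dep (q + 3) φ)
    (hm : ∀ i, i < q + 3 → MonoAt (q + 3) (range M) φ i (decide (i % 2 = 0))) {d d' : ℕ → ℕ}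
    (hM : ∀ j, j < q + 3 → d j < M) (hM' : ∀ j, j < q + 3 → d' j < M)
    (hne : ∀ k, k ≤ q + 1 → d k ≠ d (k + 1)) (hne' : ∀ k, k ≤ q + 1 → d' k ≠ d' (k + 1))
    (h : Le (q + 3) d d') (hG : G q φ d = true) : G q φ d' = true := by
  rcases rep_compare (tt_le (K := q + 1) h) with h1 | h1 | ⟨h1, h2, h3⟩
  · rw [G_some h1] at hG
    exact absurd hG (by simp)
  · exact G_some h1
  · have h4 := h3 (by omega) 0 (by omega)
    have a1 := rep_none.1 h1
    have a2 := rep_none.1 h2
    have e0 : ∀ e : ℕ → ℕ, tt e 0 = decide (e 1 < e 0) := fun e => by simp [tt]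
    rw [e0, e0] at h4
    have n1 := hne 0 (by omega)
    have n2 := hne' 0 (by omega)
    simp only [zero_add] at n1 n2
    rcases Nat.lt_or_ge (d 1) (d 0) with h5 | h5
    · have h6 : d' 1 < d' 0 := by
        rw [decide_eq_true h5] at h4
        exact of_decide_eq_true h4.symm
      rw [G_dec h1 h5] at hG
      rw [G_dec h2 h6]
      have i1 := dec_seq hM (dec_of_alt a1 hne h5)
      have i2 := dec_seq hM' (dec_of_alt a2 hne' h6)
      rcases Nat.mod_two_eq_zero_or_one q with h7 | h7
      · have h8 : ¬ q % 2 = 1 := by omega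
        simp only [h8, decide_false, Bool.xor_false] at hG ⊢
        refine alt_mono hφ hm i1 i2 (fun j hj => ⟨fun h9 => ?_, fun h9 => ?_⟩) hG
        · exact (h (q + 2 - j) (by omega)).1 (by omega)
        · exact (h (q + 2 - j) (by omega)).2 (by omega)
      · simp only [h7, decide_true, Bool.xor_true, Bool.not_eq_true'] at hG ⊢
        by_contra h8
        have h9 := alt_mono hφ hm i2 i1 (fun j hj => ⟨fun h9 => ?_, fun h9 => ?_⟩)
          (by simpa using h8)
        · rw [hG] at h9
          exact absurd h9 (by simp)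
        · exact (h (q + 2 - j) (by omega)).2 (by omega)
        · exact (h (q + 2 - j) (by omega)).1 (by omega)
    · have h5' : d 0 < d 1 := by omega
      have h6 : d' 0 < d' 1 := by
        rw [decide_eq_false (by omega)] at h4
        have := of_decide_eq_false h4.symm
        omega
      rw [G_inc h1 h5'] at hG
      rw [G_inc h2 h6]
      exact alt_mono hφ hm (inc_seq hM (inc_of_alt a1 hne h5'))
        (inc_seq hM' (inc_of_alt a2 hne' h6)) h hG

end Pool.Agent.H86.Mono
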