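import Pool.Agent.H86.Mono.Rep

/-!
# Stepping up
-/

set_option autoImplicit false

namespace Pool.Agent.H86.Mono

open Finset
open Pool.Agent.TH138.NF (hd hd_ne hd_max hd_lt hd_inc hd_dec e_mono e_anti monotone_half)

/-- the differing digits -/
def dd (x : ℕ → ℕ) : ℕ → ℕ := fun j => hd (x j) (x (j + 1))

/-- the stepped-up colouring of `(q + 4)`-tuples -/
def stepc (q : ℕ) (φ : (ℕ → ℕ) → Bool) (x : ℕ → ℕ) : Bool := !(G q φ (dd x))

theorem stepc_dep {q : ℕ} {φ : (ℕ → ℕ) → Bool} (hφ : Dep (q + 3) φ) :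
    Dep (q + 4) (stepc q φ) := by
  intro x y h
  unfold stepc
  rw [G_congr hφ (fun j hj => ?_)]
  simp only [dd, h j (by omega), h (j + 1) (by omega)]

theorem hd_up {a x y : ℕ} (h1 : a < x) (h2 : x ≤ y) : hd a x ≤ hd a y := by
  rcases Nat.eq_or_lt_of_le h2 with h | h
  · rw [h]
  · rw [hd_max h1 h]
    exact le_max_left _ _

theorem hd_down {x y b : ℕ} (h1 : x ≤ y) (h2 : y < b) : hd y b ≤ hd x b := by
  rcases Nat.eq_or_lt_of_le h1 with h | h
  · rw [h]
  · rw [hd_max h h2]
    exact le_max_right _ _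

theorem dd_facts {r M : ℕ} {x : ℕ → ℕ} (hx : Inc (r + 1) (range (2 ^ M)) x) :
    (∀ j, j < r → dd x j < M) ∧ ∀ k, k + 1 < r → dd x k ≠ dd x (k + 1) := by
  refine ⟨fun j hj => ?_, fun k hk => ?_⟩
  · exact hd_lt (hx.2 j (by omega)) (mem_range.1 (hx.1 (j + 1) (by omega)))
  · exact hd_ne (hx.2 k (by omega)) (hx.2 (k + 1) (by omega))

theorem dd_move {r i : ℕ} {V : Finset ℕ} {x y : ℕ → ℕ} (hx : Inc (r + 1) V x)
    (hy : Inc (r + 1) V y) (h : ∀ j, j < r + 1 → j ≠ i → x j = y j) (hi : x i ≤ y i) :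
    ∀ j, j < r → (j ≠ i → dd x j ≤ dd y j) ∧ (j + 1 ≠ i → dd y j ≤ dd x j) := by
  intro j hj
  unfold dd
  refine ⟨fun h1 => ?_, fun h1 => ?_⟩
  · rw [h j (by omega) h1]
    by_cases h2 : j + 1 = i
    · subst h2
      have := hx.2 j (by omega)
      rw [h j (by omega) h1] at this
      exact hd_up this hi
    · rw [h (j + 1) (by omega) h2]
  · rw [h (j + 1) (by omega) h1]
    by_cases h2 : j = i
    · subst h2
      exact hd_down hi (hy.2 j (by omega))
    · rw [h j (by omega) h2]

theorem stepc_mono {q M : ℕ} {φ : (ℕ → ℕ) → Bool} (hφ : Dep (q + 3) φ)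
    (hm : ∀ i, i < q + 3 → MonoAt (q + 3) (range M) φ i (decide (i % 2 = 0))) :
    ∀ i, i < q + 4 → MonoAt (q + 4) (range (2 ^ M)) (stepc q φ) i (decide (i % 2 = 0)) := by
  intro i hi x y hx hy hxy hle
  obtain ⟨x1, x2⟩ := dd_facts hx
  obtain ⟨y1, y2⟩ := dd_facts hy
  have hmv := dd_move hx hy hxy hle
  unfold stepc
  rcases Nat.mod_two_eq_zero_or_one i with h | h
  · rw [decide_eq_true h]
    intro h1
    rw [Bool.not_eq_true'] at h1 ⊢
    by_contra h2
    have h3 := G_mono hφ hm y1 x1 (fun k hk => y2 k (by omega)) (fun k hk => x2 k (by omega))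
      (fun j hj => ⟨fun h4 => (hmv j hj).2 (by omega), fun h4 => (hmv j hj).1 (by omega)⟩)
      (by simpa using h2)
    rw [h1] at h3
    exact absurd h3 (by simp)
  · rw [decide_eq_false (by omega)]
    intro h1
    rw [Bool.not_eq_false'] at h1 ⊢
    exact G_mono hφ hm x1 y1 (fun k hk => x2 k (by omega)) (fun k hk => y2 k (by omega))
      (fun j hj => ⟨fun h4 => (hmv j hj).1 (by omega), fun h4 => (hmv j hj).2 (by omega)⟩) h1

/-- the set of differing digits of a monotone stretch is homogeneous -/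
theorem hom_of_stretch {q : ℕ} {φ : (ℕ → ℕ) → Bool} (hφ : Dep (q + 3) φ) (S : Finset ℕ)
    (hS : Hom (q + 4) (stepc q φ) S) (y : ℕ → ℕ) (K : ℕ) (hyS : ∀ i ≤ K, y i ∈ S)
    (hy : ∀ i, i < K → y i < y (i + 1))
    (he : (∀ i, i + 1 < K → hd (y i) (y (i + 1)) < hd (y (i + 1)) (y (i + 2))) ∨
      (∀ i, i + 1 < K → hd (y (i + 1)) (y (i + 2)) < hd (y i) (y (i + 1)))) :
    Hom (q + 3) φ ((range K).image (fun i => hd (y i) (y (i + 1)))) ∧
      ((range K).image (fun i => hd (y i) (y (i + 1)))).card = K := by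
  classical
  obtain ⟨b, hb⟩ := hS
  have hch : ∀ z : ℕ → ℕ, Inc (q + 3) ((range K).image (fun i => hd (y i) (y (i + 1)))) z →
      ∃ idx : ℕ → ℕ, ∀ l, l < q + 3 → idx l < K ∧ hd (y (idx l)) (y (idx l + 1)) = z l := by
    intro z hz
    have h1 : ∀ l, ∃ i, l < q + 3 → i < K ∧ hd (y i) (y (i + 1)) = z l := by
      intro l
      by_cases hl : l < q + 3
      · obtain ⟨i, hi, hi'⟩ := mem_image.1 (hz.1 l hl)
        exact ⟨i, fun _ => ⟨mem_range.1 hi, hi'⟩⟩
      · exact ⟨0, fun h => absurd h hl⟩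
    choose idx hidx using h1
    exact ⟨idx, hidx⟩
  rcases he with he | he
  · have hm : ∀ i k, i < k → k < K → hd (y i) (y (i + 1)) < hd (y k) (y (k + 1)) :=
      e_mono (fun i => hd (y i) (y (i + 1))) K he
    refine ⟨⟨!b, fun z hz => ?_⟩, ?_⟩
    · obtain ⟨idx, hidx⟩ := hch z hz
      have him : ∀ l, l + 1 < q + 3 → idx l < idx (l + 1) := by
        intro l hl
        by_contra hle
        push Not at hle
        have h3 := hz.2 l hl
        rw [← (hidx l (by omega)).2, ← (hidx (l + 1) hl).2] at h3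
        rcases Nat.lt_or_eq_of_le hle with h | h
        · exact absurd (hm _ _ h (hidx l (by omega)).1) (not_lt.2 h3.le)
        · rw [h] at h3
          exact lt_irrefl _ h3
      let x : ℕ → ℕ := fun l => if l = 0 then y (idx 0) else y (idx (l - 1) + 1)
      have x0 : x 0 = y (idx 0) := by simp [x]
      have xs : ∀ l, x (l + 1) = y (idx l + 1) := fun l => by simp [x]
      have hinc := hd_inc y K hy he
      have hx : Inc (q + 4) S x := by
        refine ⟨fun l hl => ?_, fun l hl => ?_⟩
        · rcases Nat.eq_zero_or_pos l with h | h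
          · rw [h, x0]
            exact hyS _ (hidx 0 (by omega)).1.le
          · obtain ⟨l', rfl⟩ : ∃ l', l = l' + 1 := ⟨l - 1, by omega⟩
            rw [xs]
            exact hyS _ (hidx l' (by omega)).1
        · rcases Nat.eq_zero_or_pos l with h | h
          · rw [h, x0, xs]
            exact hy _ (hidx 0 (by omega)).1
          · obtain ⟨l', rfl⟩ : ∃ l', l = l' + 1 := ⟨l - 1, by omega⟩
            rw [xs, xs]
            exact (hinc (idx l' + 1) (idx (l' + 1) + 1) (by have := him l' (by omega); omega)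
              (hidx (l' + 1) (by omega)).1).1
      have hdx : ∀ l, l < q + 3 → dd x l = z l := by
        intro l hl
        unfold dd
        rcases Nat.eq_zero_or_pos l with h | h
        · rw [h, x0, xs, (hidx 0 (by omega)).2]
        · obtain ⟨l', rfl⟩ : ∃ l', l = l' + 1 := ⟨l - 1, by omega⟩
          rw [xs, xs, (hinc (idx l' + 1) (idx (l' + 1) + 1)
            (by have := him l' (by omega); omega) (hidx (l' + 1) (by omega)).1).2]
          rw [show idx (l' + 1) + 1 - 1 = idx (l' + 1) by omega, (hidx (l' + 1) (by omega)).2]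
      have h1 := hb x hx
      unfold stepc at h1
      have hlt : ∀ k, k ≤ q + 1 → dd x k < dd x (k + 1) := by
        intro k hk
        rw [hdx k (by omega), hdx (k + 1) (by omega)]
        exact hz.2 k (by omega)
      rw [G_inc (rep_inc hlt) (hlt 0 (by omega)), hφ _ _ hdx] at h1
      rw [← h1, Bool.not_not]
    · rw [card_image_of_injOn, card_range]
      intro i hi k hk hik
      rw [coe_range, Set.mem_Iio] at hi hk
      simp only at hik
      rcases lt_trichotomy i k with h | h | h
      · exact absurd hik (hm i k h hk).ne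
      · exact h
      · exact absurd hik (hm k i h hi).ne'
  · have hm : ∀ i k, i < k → k < K → hd (y k) (y (k + 1)) < hd (y i) (y (i + 1)) :=
      e_anti (fun i => hd (y i) (y (i + 1))) K he
    refine ⟨⟨!b ^^ decide (q % 2 = 1), fun z hz => ?_⟩, ?_⟩
    · obtain ⟨idx, hidx⟩ := hch z hz
      have him : ∀ l, l + 1 < q + 3 → idx (l + 1) < idx l := by
        intro l hl
        by_contra hle
        push Not at hle
        have h3 := hz.2 l hl
        rw [← (hidx l (by omega)).2, ← (hidx (l + 1) hl).2] at h3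
        rcases Nat.lt_or_eq_of_le hle with h | h
        · exact absurd (hm _ _ h (hidx (l + 1) (by omega)).1) (not_lt.2 h3.le)
        · rw [h] at h3
          exact lt_irrefl _ h3
      let x : ℕ → ℕ := fun l => if l < q + 3 then y (idx (q + 2 - l)) else y (idx 0 + 1)
      have x0 : ∀ l, l < q + 3 → x l = y (idx (q + 2 - l)) := fun l hl => by simp [x, hl]
      have xs : x (q + 3) = y (idx 0 + 1) := by simp [x]
      have hdec := hd_dec y K hy he
      have him' : ∀ l, l + 1 < q + 3 → idx (q + 2 - l) < idx (q + 2 - (l + 1)) := by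
        intro l hl
        have := him (q + 2 - (l + 1)) (by omega)
        rwa [show q + 2 - (l + 1) + 1 = q + 2 - l by omega] at this
      have hx : Inc (q + 4) S x := by
        refine ⟨fun l hl => ?_, fun l hl => ?_⟩
        · rcases Nat.lt_or_ge l (q + 3) with h | h
          · rw [x0 l h]
            exact hyS _ (hidx _ (by omega)).1.le
          · have : l = q + 3 := by omega
            rw [this, xs]
            exact hyS _ (hidx 0 (by omega)).1
        · rcases Nat.lt_or_ge (l + 1) (q + 3) with h | h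
          · rw [x0 l (by omega), x0 (l + 1) h]
            exact (hdec _ _ (him' l h) (hidx _ (by omega)).1.le).1
          · have : l = q + 2 := by omega
            subst this
            rw [x0 (q + 2) (by omega), show q + 2 + 1 = q + 3 by omega, xs,
              show q + 2 - (q + 2) = 0 by omega]
            exact hy _ (hidx 0 (by omega)).1
      have hdx : ∀ l, l < q + 3 → dd x l = z (q + 2 - l) := by
        intro l hl
        unfold dd
        rcases Nat.lt_or_ge (l + 1) (q + 3) with h | h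
        · rw [x0 l (by omega), x0 (l + 1) h,
            (hdec _ _ (him' l h) (hidx _ (by omega)).1.le).2.1, (hidx _ (by omega)).2]
        · have : l = q + 2 := by omega
          subst this
          rw [x0 (q + 2) (by omega), show q + 2 + 1 = q + 3 by omega, xs,
            show q + 2 - (q + 2) = 0 by omega, (hidx 0 (by omega)).2]
      have h1 := hb x hx
      unfold stepc at h1
      have hlt : ∀ k, k ≤ q + 1 → dd x (k + 1) < dd x k := by
        intro k hk
        rw [hdx k (by omega), hdx (k + 1) (by omega)]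
        have := hz.2 (q + 2 - (k + 1)) (by omega)
        rwa [show q + 2 - (k + 1) + 1 = q + 2 - k by omega] at this
      have e : φ (fun j => dd x (q + 2 - j)) = φ z := by
        refine hφ _ _ (fun i hi => ?_)
        rw [hdx _ (by omega), show q + 2 - (q + 2 - i) = i by omega]
      rw [G_dec (rep_dec hlt) (hlt 0 (by omega)), e] at h1
      rw [← h1]
      cases φ z <;> cases decide (q % 2 = 1) <;> rfl
    · rw [card_image_of_injOn, card_range]
      intro i hi k hk hik
      rw [coe_range, Set.mem_Iio] at hi hk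
      simp only at hik
      rcases lt_trichotomy i k with h | h | h
      · exact absurd hik (hm i k h hk).ne'
      · exact h
      · exact absurd hik (hm k i h hi).ne

/-- an increasing enumeration -/
theorem enum (S : Finset ℕ) : ∃ x : ℕ → ℕ, (∀ i < S.card, x i ∈ S) ∧
    ∀ i j, i < j → j < S.card → x i < x j := by
  classical
  refine ⟨fun i => if h : i < S.card then S.orderEmbOfFin rfl ⟨i, h⟩ else 0, ?_, ?_⟩
  · intro i hi
    simp only [dif_pos hi]
    exact S.orderEmbOfFin_mem rfl _
  · intro i j hij hj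
    simp only [dif_pos hj, dif_pos (hij.trans hj)]
    exact (S.orderEmbOfFin rfl).strictMono (by simpa using hij)

/-- **Stepping up.** -/
theorem step_lower {q : ℕ} {φ : (ℕ → ℕ) → Bool} (hφ : Dep (q + 3) φ) (M n : ℕ) (hn : 2 ≤ n)
    (hP : ∀ S ⊆ range M, S.card = n → ¬ Hom (q + 3) φ S) :
    ∀ S ⊆ range (2 ^ M), S.card = 2 * n + q → ¬ Hom (q + 4) (stepc q φ) S := by
  classical
  intro S hS hc hhom
  obtain ⟨x, hxS, hxm⟩ := enum S
  rw [hc] at hxS hxm
  obtain ⟨R, rfl⟩ : ∃ R, n = R + 1 := ⟨n - 1, by omega⟩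
  have hR : 1 ≤ R := by omega
  set e : ℕ → ℕ := fun i => hd (x i) (x (i + 1)) with he
  have hne : ∀ i, i < 2 * R → e i ≠ e (i + 1) := fun i hi =>
    hd_ne (hxm i (i + 1) (by omega) (by omega)) (hxm (i + 1) (i + 1 + 1) (by omega) (by omega))
  obtain ⟨b, hb⟩ := hhom
  -- windows
  have hwin : ∀ i, i + 2 ≤ 2 * R → ∃ w : ℕ → ℕ, Inc (q + 4) S w ∧
      dd w 0 = e i ∧ dd w 1 = e (i + 1) ∧ dd w 2 = e (i + 2) := by
    intro i hi
    refine ⟨fun l => x (i + l), ⟨fun l hl => hxS _ (by omega), fun l hl => ?_⟩, ?_, ?_, ?_⟩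
    · exact hxm _ _ (by omega) (by omega)
    · rfl
    · rfl
    · rfl
  have run_min : ∀ w : ℕ → ℕ, dd w 1 < dd w 0 → dd w 1 < dd w 2 → stepc q φ w = false := by
    intro w h1 h2
    unfold stepc
    rw [G_some (b := true)]
    · rfl
    · have e0 : tt (dd w) 0 = true := by simp [tt, h1]
      have e1 : tt (dd w) 1 = true := by simp [tt, h2]
      rw [rep_first (by rw [e0, e1]), e0]
  have run_max : ∀ w : ℕ → ℕ, dd w 0 < dd w 1 → dd w 2 < dd w 1 → stepc q φ w = true := by
    intro w h1 h2
    unfold stepc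
    rw [G_some (b := false)]
    · rfl
    · have e0 : tt (dd w) 0 = false := by simp [tt]; omega
      have e1 : tt (dd w) 1 = false := by simp [tt]; omega
      rw [rep_first (by rw [e0, e1]), e0]
  obtain ⟨flag, hflag⟩ : ∃ flag : Bool,
      (flag = false → ∀ i, i + 2 ≤ 2 * R → ¬ (e (i + 1) < e i ∧ e (i + 1) < e (i + 2))) ∧
      (flag = true → ∀ i, i + 2 ≤ 2 * R → ¬ (e i < e (i + 1) ∧ e (i + 2) < e (i + 1))) := by
    by_cases hmax : ∃ i, i + 2 ≤ 2 * R ∧ (e i < e (i + 1) ∧ e (i + 2) < e (i + 1))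
    · refine ⟨false, fun _ i hi hmin => ?_, fun h => by simp at h⟩
      obtain ⟨i', hi', h1, h2⟩ := hmax
      obtain ⟨w, hw1, a0, a1, a2⟩ := hwin i hi
      obtain ⟨w', hw1', b0, b1, b2⟩ := hwin i' hi'
      have e1 := run_min w (by rw [a0, a1]; exact hmin.1) (by rw [a1, a2]; exact hmin.2)
      have e2 := run_max w' (by rw [b0, b1]; exact h1) (by rw [b1, b2]; exact h2)
      rw [hb w hw1] at e1
      rw [hb w' hw1'] at e2
      rw [e1] at e2
      exact absurd e2 (by simp)
    · push Not at hmax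
      refine ⟨true, fun h => by simp at h, fun _ i hi h => ?_⟩
      have := hmax i hi h.1
      omega
  obtain ⟨i0, hi0, hmon⟩ := monotone_half e R hR hne flag hflag.1 hflag.2
  have hK : (∀ i, i + 1 < R + 1 → hd (x (i0 + i)) (x (i0 + (i + 1))) <
        hd (x (i0 + (i + 1))) (x (i0 + (i + 2)))) ∨
      (∀ i, i + 1 < R + 1 → hd (x (i0 + (i + 1))) (x (i0 + (i + 2))) <
        hd (x (i0 + i)) (x (i0 + (i + 1)))) := by
    rcases hmon with h | h
    · exact Or.inl (fun i hi => h i (by omega))
    · exact Or.inr (fun i hi => h i (by omega))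
  obtain ⟨h1, h2⟩ := hom_of_stretch hφ S ⟨b, hb⟩ (fun i => x (i0 + i)) (R + 1)
    (fun i hi => hxS _ (by omega)) (fun i hi => hxm _ _ (by omega) (by omega)) hK
  refine hP _ ?_ h2 h1
  intro u hu
  obtain ⟨i, hi, rfl⟩ := mem_image.1 hu
  rw [mem_range] at hi ⊢
  exact hd_lt (hxm _ _ (by omega) (by omega)) (mem_range.1 (hS (hxS _ (by omega))))

end Pool.Agent.H86.Mono
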