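import Pool.Agent.H86.Mono.Base
import Pool.Agent.R734.CC.EndHom

/-!
# Two and three coordinates, one coordinate more, merging of two coordinates
-/

set_option autoImplicit false

namespace Pool.Agent.H86.Mono

open Finset

def pr (u v : ℕ) : ℕ → ℕ := fun i => if i = 0 then u else v

def tr (u v w : ℕ) : ℕ → ℕ := fun i => if i = 0 then u else if i = 1 then v else w

theorem inc_pr {V : Finset ℕ} {u v : ℕ} (hu : u ∈ V) (hv : v ∈ V) (h : u < v) :
    Inc 2 V (pr u v) := by
  refine ⟨fun i hi => ?_, fun i hi => ?_⟩
  · unfold pr
    split_ifs <;> assumption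
  · have : i = 0 := by omega
    subst this
    simpa [pr] using h

theorem inc_tr {V : Finset ℕ} {u v w : ℕ} (hu : u ∈ V) (hv : v ∈ V) (hw : w ∈ V) (h : u < v)
    (h' : v < w) : Inc 3 V (tr u v w) := by
  refine ⟨fun i hi => ?_, fun i hi => ?_⟩
  · unfold tr
    split_ifs <;> assumption
  · have : i = 0 ∨ i = 1 := by omega
    rcases this with rfl | rfl
    · simpa [tr] using h
    · simpa [tr] using h'

theorem bnot {a b : Bool} (h : a ≠ b) : a = !b := by
  revert h
  revert a b
  decide

theorem arr_two (ε : ℕ → Bool) (n : ℕ) : Arr 2 ε (n * n) n := by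
  intro V c hV hc hm
  have hpr : ∀ x : ℕ → ℕ, c x = c (pr (x 0) (x 1)) := by
    intro x
    refine hc _ _ (fun i hi => ?_)
    have : i = 0 ∨ i = 1 := by omega
    rcases this with rfl | rfl <;> simp [pr]
  have hP : ∀ a ∈ V, ∀ u ∈ V, ∀ v ∈ V, a < u → u < v → c (pr u v) ≠ ε 0 → c (pr a v) ≠ ε 0 := by
    intro a ha u hu v hv hau huv h h2
    refine h (hm 0 (by norm_num) (pr a v) (pr u v) (inc_pr ha hv (hau.trans huv))
      (inc_pr hu hv huv) (fun j hj hj0 => ?_) (by simpa [pr] using hau.le) h2)
    simp [pr, hj0]
  rcases pairs (fun u v => c (pr u v) ≠ ε 0) n n V hV hP with ⟨S, hS, hSc, h⟩ | ⟨S, hS, hSc, h⟩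
  · refine ⟨S, hS, hSc, ε 0, fun x hx => ?_⟩
    rw [hpr]
    have := h (x 0) (hx.1 0 (by norm_num)) (x 1) (hx.1 1 (by norm_num)) (hx.2 0 (by norm_num))
    simpa using this
  · refine ⟨S, hS, hSc, !(ε 0), fun x hx => ?_⟩
    rw [hpr]
    have h9 := h (x 0) (hx.1 0 (by norm_num)) (x 1) (hx.1 1 (by norm_num)) (hx.2 0 (by norm_num))
    exact bnot (fun h8 => h9 (by simpa using h8))

theorem arr_three (ε : ℕ → Bool) (hε : ε 0 = ε 2) (n : ℕ) (hn : 2 ≤ n) :
    Arr 3 ε ((2 * n - 4).choose (n - 2) + 1) n := by
  intro V c hV hc hm
  have htr : ∀ x : ℕ → ℕ, c x = c (tr (x 0) (x 1) (x 2)) := by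
    intro x
    refine hc _ _ (fun i hi => ?_)
    have : i = 0 ∨ i = 1 ∨ i = 2 := by omega
    rcases this with rfl | rfl | rfl <;> simp [tr]
  have h1 : ∀ a ∈ V, ∀ x ∈ V, ∀ y ∈ V, ∀ z ∈ V, a < x → x < y → y < z →
      c (tr a y z) = ε 0 → c (tr x y z) = ε 0 := by
    intro a ha x hx y hy z hz hax hxy hyz h
    refine hm 0 (by norm_num) (tr a y z) (tr x y z) (inc_tr ha hy hz (hax.trans hxy) hyz)
      (inc_tr hx hy hz hxy hyz) (fun j hj hj0 => ?_) (by simpa [tr] using hax.le) h
    simp [tr, hj0]
  have h3 : ∀ x ∈ V, ∀ y ∈ V, ∀ z ∈ V, ∀ b ∈ V, x < y → y < z → z < b →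
      c (tr x y z) = ε 0 → c (tr x y b) = ε 0 := by
    intro x hx y hy z hz b hb hxy hyz hzb h
    rw [hε] at h ⊢
    refine hm 2 (by norm_num) (tr x y z) (tr x y b) (inc_tr hx hy hz hxy hyz)
      (inc_tr hx hy hb hxy (hyz.trans hzb)) (fun j hj hj0 => ?_) (by simpa [tr] using hzb.le) h
    have : j = 0 ∨ j = 1 := by omega
    rcases this with rfl | rfl <;> simp [tr]
  have hV' : ((n - 2) + (n - 2)).choose (n - 2) < V.card := by
    rw [show (n - 2) + (n - 2) = 2 * n - 4 by omega]
    omega
  have e : n - 2 + 2 = n := by omega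
  rcases triples (fun x y z => c (tr x y z) = ε 0) (n - 2) (n - 2) V hV' h1 h3 with
    ⟨S, hS, hSc, h⟩ | ⟨S, hS, hSc, h⟩
  · refine ⟨S, hS, by rw [hSc, e], ε 0, fun x hx => ?_⟩
    rw [htr]
    exact h (x 0) (hx.1 0 (by norm_num)) (x 1) (hx.1 1 (by norm_num)) (x 2) (hx.1 2 (by norm_num))
      (hx.2 0 (by norm_num)) (hx.2 1 (by norm_num))
  · refine ⟨S, hS, by rw [hSc, e], !(ε 0), fun x hx => ?_⟩
    rw [htr]
    have h9 := h (x 0) (hx.1 0 (by norm_num)) (x 1) (hx.1 1 (by norm_num)) (x 2)
      (hx.1 2 (by norm_num)) (hx.2 0 (by norm_num)) (hx.2 1 (by norm_num))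
    exact bnot h9

theorem arr_mono {r : ℕ} {ε : ℕ → Bool} {N N' n : ℕ} (h : Arr r ε N n) (hN : N ≤ N') :
    Arr r ε N' n := fun V c hV => h V c (hN.trans hV)

theorem arr_three' (ε : ℕ → Bool) (hε : ε 0 = ε 2) (n : ℕ) : Arr 3 ε (4 ^ n) n := by
  rcases Nat.lt_or_ge n 2 with h | h
  · intro V c hV _ _
    have h4 : n ≤ 4 ^ n := (Nat.lt_pow_self (by norm_num)).le
    obtain ⟨S, hS, hSc⟩ := exists_subset_card_eq (h4.trans hV)
    refine ⟨S, hS, hSc, true, fun x hx => ?_⟩
    exfalso
    have h1 := hx.1 0 (by norm_num)
    have h2 := hx.1 1 (by norm_num)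
    have h3 : x 0 < x 1 := hx.2 0 (by norm_num)
    have : ({x 0, x 1} : Finset ℕ) ⊆ S := by
      intro w hw
      simp only [mem_insert, mem_singleton] at hw
      rcases hw with rfl | rfl <;> assumption
    have h5 := card_le_card this
    rw [card_insert_of_notMem (by simp; omega), card_singleton] at h5
    omega
  · refine arr_mono (arr_three ε hε n h) ?_
    have h1 : (2 * n - 4).choose (n - 2) ≤ 2 ^ (2 * n - 4) := Nat.choose_le_two_pow _ _
    have h2 : 2 ^ (2 * n - 4) < 4 ^ n := by
      rw [show (4 : ℕ) = 2 ^ 2 by norm_num, ← pow_mul]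
      exact Nat.pow_lt_pow_right (by norm_num) (by omega)
    omega

/-- **One coordinate more** (Erdős and Rado). -/
theorem arr_succ {r : ℕ} (hr : 1 ≤ r) {ε : ℕ → Bool} {M n : ℕ} (h : Arr r ε M n) :
    Arr (r + 1) ε ((2 * 2 ^ (M ^ r)) ^ M) n := by
  classical
  intro V c hV hc hm
  haveI : Nonempty (Fin r) := ⟨⟨0, hr⟩⟩
  let c1 : (Fin r → ℕ) → ℕ → Bool := fun a v => c (fun i => if h : i < r then a ⟨i, h⟩ else v)
  obtain ⟨W, hWV, hWc, u, huV, hWu, hu⟩ := Pool.Agent.R734.CC.end_hom c1 M V (by
    rw [Fintype.card_fin, Fintype.card_bool]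
    exact hV)
  let ext : (ℕ → ℕ) → (ℕ → ℕ) := fun x i => if i < r then x i else u
  have hext : ∀ x, Inc r W x → Inc (r + 1) V (ext x) := by
    intro x hx
    refine ⟨fun i hi => ?_, fun i hi => ?_⟩
    · simp only [ext]
      split_ifs with h1
      · exact hWV (hx.1 i h1)
      · exact huV
    · simp only [ext]
      have h1 : i < r := by omega
      rw [if_pos h1]
      split_ifs with h2
      · exact hx.2 i h2
      · exact hWu _ (hx.1 i h1)
  have hcx : ∀ x, Inc (r + 1) W x → c x = c (ext x) := by
    intro x hx
    have h1 := hu (fun i => x i) (fun i => hx.1 i (by omega)) (x r) (hx.1 r (by omega))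
      (fun i => hx.lt i.2 (by omega))
    have e1 : c1 (fun i => x i) (x r) = c x := by
      refine hc _ _ (fun i hi => ?_)
      by_cases h2 : i < r
      · simp [h2]
      · have : i = r := by omega
        simp [this]
    have e2 : c1 (fun i => x i) u = c (ext x) := by
      refine hc _ _ (fun i hi => ?_)
      by_cases h2 : i < r <;> simp [ext, h2]
    rw [← e1, h1, e2]
  obtain ⟨S, hS, hSc, b, hb⟩ := h W (fun x => c (ext x)) hWc.ge (by
    intro x y hxy
    refine hc _ _ (fun i hi => ?_)
    by_cases h2 : i < r
    · simp [ext, h2, hxy i h2]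
    · simp [ext, h2]) (by
    intro i hi x y hx hy hxy hle hcb
    refine hm i (by omega) (ext x) (ext y) (hext x hx) (hext y hy) (fun j hj hji => ?_) ?_ hcb
    · by_cases h2 : j < r
      · simp [ext, h2, hxy j h2 hji]
      · simp [ext, h2]
    · simpa [ext, hi] using hle)
  refine ⟨S, hS.trans hWV, hSc, b, fun x hx => ?_⟩
  rw [hcx x (hx.mono hS)]
  exact hb x ⟨fun i hi => hx.1 i (by omega), fun i hi => hx.2 i (by omega)⟩

/-- every other element -/
theorem exists_spread : ∀ (N : ℕ) (V : Finset ℕ), 2 * N ≤ V.card →
    ∃ W ⊆ V, W.card = N ∧ ∃ σ : ℕ → ℕ, ∀ v ∈ W, σ v ∈ V ∧ v < σ v ∧ ∀ w ∈ W, v < w → σ v < w := by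
  classical
  intro N
  induction N with
  | zero =>
    intro V _
    exact ⟨∅, empty_subset _, card_empty, id, by simp⟩
  | succ N ih =>
    intro V hV
    have hne : V.Nonempty := card_pos.1 (by omega)
    set a := V.min' hne with ha
    have haV : a ∈ V := V.min'_mem hne
    have hmin : ∀ v ∈ V, a ≤ v := fun v hv => V.min'_le v hv
    have hne2 : (V.erase a).Nonempty := card_pos.1 (by rw [card_erase_of_mem haV]; omega)
    set a2 := (V.erase a).min' hne2 with ha2
    have ha2V : a2 ∈ V.erase a := (V.erase a).min'_mem hne2
    have hmin2 : ∀ v ∈ V.erase a, a2 ≤ v := fun v hv => (V.erase a).min'_le v hv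
    obtain ⟨W, hW, hWc, σ, hσ⟩ := ih ((V.erase a).erase a2) (by
      rw [card_erase_of_mem ha2V, card_erase_of_mem haV]
      omega)
    have hW' : ∀ w ∈ W, w ∈ V ∧ w ≠ a ∧ a2 < w := by
      intro w hw
      have h1 := mem_erase.1 (hW hw)
      have h2 := mem_erase.1 h1.2
      refine ⟨h2.2, h2.1, lt_of_le_of_ne (hmin2 w h1.2) (Ne.symm h1.1)⟩
    have haW : a ∉ W := fun h => (hW' a h).2.1 rfl
    have haa2 : a < a2 := lt_of_le_of_ne (hmin a2 (mem_of_mem_erase ha2V))
      (Ne.symm (mem_erase.1 ha2V).1)
    refine ⟨insert a W, ?_, by rw [card_insert_of_notMem haW, hWc], Function.update σ a a2, ?_⟩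
    · intro v hv
      rcases mem_insert.1 hv with h | h
      · rw [h]
        exact haV
      · exact (hW' v h).1
    · intro v hv
      rcases mem_insert.1 hv with h | h
      · subst h
        rw [Function.update_self]
        refine ⟨mem_of_mem_erase ha2V, haa2, fun w hw hvw => ?_⟩
        rcases mem_insert.1 hw with h1 | h1
        · omega
        · exact (hW' w h1).2.2
      · rw [Function.update_of_ne (hW' v h).2.1]
        obtain ⟨h1, h2, h3⟩ := hσ v h
        refine ⟨mem_of_mem_erase (mem_of_mem_erase h1), h2, fun w hw hvw => ?_⟩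
        rcases mem_insert.1 hw with h4 | h4
        · have := hmin v (hW' v h).1
          omega
        · exact h3 w h4 hvw

/-- **Merging** of two adjacent coordinates with the same sign. -/
theorem arr_merge {r i : ℕ} (hi : i < r) {ε : ℕ → Bool} (hε : ε i = ε (i + 1)) {N n : ℕ}
    (h : Arr r (fun j => if j ≤ i then ε j else ε (j + 1)) N n) : Arr (r + 1) ε (2 * N) n := by
  classical
  intro V c hV hc hm
  obtain ⟨W, hWV, hWc, σ, hσ⟩ := exists_spread N V hV
  let ins : (ℕ → ℕ) → (ℕ → ℕ) := fun x j =>
    if j ≤ i then x j else if j = i + 1 then σ (x i) else x (j - 1)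
  have ins_le : ∀ x j, j ≤ i → ins x j = x j := fun x j hj => by simp [ins, hj]
  have ins_eq : ∀ x, ins x (i + 1) = σ (x i) := fun x => by simp [ins]
  have ins_gt : ∀ x j, i < j → ins x (j + 1) = x j := fun x j hj => by
    simp only [ins]
    rw [if_neg (by omega), if_neg (by omega)]
    rfl
  have hins : ∀ x, Inc r W x → Inc (r + 1) V (ins x) := by
    intro x hx
    refine ⟨fun j hj => ?_, fun j hj => ?_⟩
    · rcases Nat.lt_or_ge i j with h1 | h1
      · obtain ⟨k, rfl⟩ : ∃ k, j = k + 1 := ⟨j - 1, by omega⟩
        rcases Nat.lt_or_ge i k with h2 | h2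
        · rw [ins_gt x k h2]
          exact hWV (hx.1 k (by omega))
        · have : k = i := by omega
          rw [this, ins_eq]
          exact (hσ _ (hx.1 i hi)).1
      · rw [ins_le x j h1]
        exact hWV (hx.1 j (by omega))
    · rcases Nat.lt_trichotomy j i with h1 | h1 | h1
      · rw [ins_le x j h1.le, ins_le x (j + 1) h1]
        exact hx.2 j (by omega)
      · rw [h1, ins_le x i le_rfl, ins_eq]
        exact (hσ _ (hx.1 i hi)).2.1
      · obtain ⟨k, rfl⟩ : ∃ k, j = k + 1 := ⟨j - 1, by omega⟩
        rw [ins_gt x (k + 1) (by omega)]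
        rcases Nat.lt_or_ge i k with h2 | h2
        · rw [ins_gt x k h2]
          exact hx.2 k (by omega)
        · have hk : k = i := by omega
          rw [hk, ins_eq]
          exact (hσ _ (hx.1 i hi)).2.2 _ (hx.1 (i + 1) (by omega)) (hx.2 i (by omega))
  obtain ⟨S, hS, hSc, d, hd⟩ := h W (fun x => c (ins x)) hWc.ge (by
    intro x y hxy
    refine hc _ _ (fun j hj => ?_)
    simp only [ins]
    split_ifs with h1 h2
    · exact hxy j (by omega)
    · rw [hxy i hi]
    · exact hxy (j - 1) (by omega)) (by
    intro j hj x y hx hy hxy hle hcb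
    simp only at hcb ⊢
    rcases Nat.lt_trichotomy j i with h1 | h1 | h1
    · rw [if_pos h1.le] at hcb ⊢
      refine hm j (by omega) (ins x) (ins y) (hins x hx) (hins y hy) (fun k hk hkj => ?_) ?_ hcb
      · simp only [ins]
        split_ifs with h2 h3
        · exact hxy k (by omega) hkj
        · rw [hxy i hi (by omega)]
        · exact hxy (k - 1) (by omega) (by omega)
      · rw [ins_le x j h1.le, ins_le y j h1.le]
        exact hle
    · subst h1
      rw [if_pos le_rfl] at hcb ⊢
      rcases Nat.eq_or_lt_of_le hle with h2 | h2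
      · have : c (ins x) = c (ins y) := by
          refine hc _ _ (fun k hk => ?_)
          simp only [ins]
          have hall : ∀ k, k < r → x k = y k := by
            intro k hk
            by_cases h3 : k = j
            · rw [h3]
              exact h2
            · exact hxy k hk h3
          split_ifs with h3 h4
          · exact hall k (by omega)
          · rw [hall j hj]
          · exact hall (k - 1) (by omega)
        rw [← this]
        exact hcb
      · -- the intermediate tuple
        let mid : ℕ → ℕ := Function.update (ins x) (j + 1) (σ (y j))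
        have hxj := hx.1 j hj
        have hyj := hy.1 j hj
        have s1 := hσ _ hxj
        have s2 := hσ _ hyj
        have hmid : Inc (r + 1) V mid := by
          have hix := hins x hx
          refine ⟨fun k hk => ?_, fun k hk => ?_⟩
          · by_cases h3 : k = j + 1
            · rw [h3]
              simp only [mid, Function.update_self]
              exact s2.1
            · simp only [mid]
              rw [Function.update_of_ne h3]
              exact hix.1 k hk
          · by_cases h3 : k = j + 1
            · simp only [mid]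
              rw [h3, Function.update_self, Function.update_of_ne (by omega)]
              rw [ins_gt x (j + 1) (by omega), hxy (j + 1) (by omega) (by omega)]
              exact s2.2.2 _ (hy.1 (j + 1) (by omega)) (hy.2 j (by omega))
            · by_cases h4 : k + 1 = j + 1
              · have h5 : k = j := by omega
                simp only [mid]
                rw [h5, Function.update_self, Function.update_of_ne (by omega), ins_le x j le_rfl]
                exact h2.trans s2.2.1
              · simp only [mid]
                rw [Function.update_of_ne h3, Function.update_of_ne h4]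
                exact hix.2 k hk
        have c1 : c mid = ε j := by
          rw [hε]
          refine hm (j + 1) (by omega) (ins x) mid (hins x hx) hmid (fun k hk hkj => ?_) ?_
            (by rw [← hε]; exact hcb)
          · simp only [mid]
            rw [Function.update_of_ne hkj]
          · simp only [mid, Function.update_self]
            rw [ins_eq]
            exact ((s1.2.2 _ hyj h2).trans s2.2.1).le
        refine hm j (by omega) mid (ins y) hmid (hins y hy) (fun k hk hkj => ?_) ?_ c1
        · by_cases h3 : k = j + 1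
          · simp only [mid]
            rw [h3, Function.update_self, ins_eq]
          · simp only [mid]
            rw [Function.update_of_ne h3]
            simp only [ins]
            rw [if_neg h3, if_neg h3]
            split_ifs with h4
            · exact hxy k (by omega) hkj
            · exact hxy (k - 1) (by omega) (by omega)
        · simp only [mid]
          rw [Function.update_of_ne (by omega), ins_le x j le_rfl, ins_le y j le_rfl]
          exact hle
    · rw [if_neg (by omega)] at hcb ⊢
      refine hm (j + 1) (by omega) (ins x) (ins y) (hins x hx) (hins y hy)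
        (fun k hk hkj => ?_) ?_ hcb
      · simp only [ins]
        split_ifs with h2 h3
        · exact hxy k (by omega) (by omega)
        · rw [hxy i hi (by omega)]
        · exact hxy (k - 1) (by omega) (by omega)
      · rw [ins_gt x j h1, ins_gt y j h1]
        exact hle)
  refine ⟨S, hS.trans hWV, hSc, d, fun x hx => ?_⟩
  have hxV : Inc (r + 1) V x := hx.mono (hS.trans hWV)
  have xi := hS (hx.1 i (by omega))
  have xi1 := hS (hx.1 (i + 1) (by omega))
  have hlt : x i < x (i + 1) := hx.2 i (by omega)
  -- the lower and the upper representative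
  let xl : ℕ → ℕ := fun j => if j ≤ i then x j else x (j + 1)
  let xh : ℕ → ℕ := fun j => if j < i then x j else x (j + 1)
  have hxl : Inc r S xl := by
    refine ⟨fun j hj => ?_, fun j hj => ?_⟩
    · simp only [xl]
      split_ifs
      · exact hx.1 j (by omega)
      · exact hx.1 (j + 1) (by omega)
    · simp only [xl]
      split_ifs with h1 h2 h3
      · exact hx.2 j (by omega)
      · exact hx.lt (by omega) (by omega)
      · omega
      · exact hx.2 (j + 1) (by omega)
  have hxh : Inc r S xh := by
    refine ⟨fun j hj => ?_, fun j hj => ?_⟩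
    · simp only [xh]
      split_ifs
      · exact hx.1 j (by omega)
      · exact hx.1 (j + 1) (by omega)
    · simp only [xh]
      split_ifs with h1 h2 h3
      · exact hx.2 j (by omega)
      · exact hx.lt (by omega) (by omega)
      · omega
      · exact hx.2 (j + 1) (by omega)
  have el : c (ins xl) = d := hd xl hxl
  have eh : c (ins xh) = d := hd xh hxh
  have up : c (ins xl) = ε i → c x = ε i := by
    intro hcl
    rw [hε] at hcl ⊢
    refine hm (i + 1) (by omega) (ins xl) x (hins xl (hxl.mono hS)) hxV (fun k hk hki => ?_) ?_ hcl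
    · simp only [ins, xl]
      split_ifs with h1 h2
      · rfl
      · omega
      · congr 1
        omega
    · rw [ins_eq]
      simp only [xl, if_pos le_rfl]
      exact ((hσ _ xi).2.2 _ xi1 hlt).le
  have dn : c x = ε i → c (ins xh) = ε i := by
    intro hcx
    let mid : ℕ → ℕ := Function.update x (i + 1) (σ (x (i + 1)))
    have s1 := hσ _ xi1
    have hmid : Inc (r + 1) V mid := by
      refine ⟨fun k hk => ?_, fun k hk => ?_⟩
      · by_cases h3 : k = i + 1
        · rw [h3]
          simp only [mid, Function.update_self]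
          exact s1.1
        · simp only [mid]
          rw [Function.update_of_ne h3]
          exact hxV.1 k hk
      · by_cases h3 : k = i + 1
        · simp only [mid]
          rw [h3, Function.update_self, Function.update_of_ne (by omega)]
          exact s1.2.2 _ (hS (hx.1 _ (by omega))) (hx.2 (i + 1) (by omega))
        · by_cases h4 : k + 1 = i + 1
          · have h5 : k = i := by omega
            simp only [mid]
            rw [h5, Function.update_self, Function.update_of_ne (by omega)]
            exact hlt.trans s1.2.1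
          · simp only [mid]
            rw [Function.update_of_ne h3, Function.update_of_ne h4]
            exact hxV.2 k hk
    have c1 : c mid = ε i := by
      rw [hε]
      refine hm (i + 1) (by omega) x mid hxV hmid (fun k hk hki => ?_) ?_
        (by rw [← hε]; exact hcx)
      · simp only [mid]
        rw [Function.update_of_ne hki]
      · simp only [mid, Function.update_self]
        exact s1.2.1.le
    refine hm i (by omega) mid (ins xh) hmid (hins xh (hxh.mono hS)) (fun k hk hki => ?_) ?_ c1
    · by_cases h3 : k = i + 1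
      · simp only [mid]
        rw [h3, Function.update_self, ins_eq]
        simp [xh]
      · simp only [mid]
        rw [Function.update_of_ne h3]
        simp only [ins, xh]
        split_ifs with h1 h2 h4
        · rfl
        · omega
        · omega
        · congr 1
          omega
    · simp only [mid]
      rw [Function.update_of_ne (by omega), ins_le xh i le_rfl]
      simp only [xh, lt_irrefl, if_false]
      exact hlt.le
  by_cases hdi : d = ε i
  · rw [hdi]
    exact up (by rw [el, hdi])
  · by_contra hcx
    have : c x = ε i := by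
      cases h1 : c x <;> cases h2 : ε i <;> cases h3 : d <;> simp_all
    have := dn this
    rw [eh] at this
    exact hdi this

end Pool.Agent.H86.Mono
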